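import Mathlib

/-!
# Packed digits for the Taylor-model kernel checker

A polynomial `x0 + x3 d1 + x4 d2 + x5 d3` with integer coefficients of absolute value `< 2^60` is
stored as the natural number `Σ (x_i + 2^60) B^i`, `B = 2^96`, `i = 0, 3, 4, 5`.
-/

set_option autoImplicit false
set_option exponentiation.threshold 3000

namespace Pool.TM

theorem land_split (k a b m n : ℕ) (ha : a < 2 ^ k) (hm : m < 2 ^ k) :
    (a + 2 ^ k * b) &&& (m + 2 ^ k * n) = (a &&& m) + 2 ^ k * (b &&& n) := by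
  apply Nat.eq_of_testBit_eq
  intro i
  rw [Nat.testBit_land, add_comm a, add_comm m, Nat.testBit_two_pow_mul_add _ ha,
    Nat.testBit_two_pow_mul_add _ hm, add_comm (a &&& m),
    Nat.testBit_two_pow_mul_add _ (lt_of_le_of_lt Nat.and_le_left ha)]
  split <;> simp

theorem xor_split (k a b m n : ℕ) (ha : a < 2 ^ k) (hm : m < 2 ^ k) :
    (a + 2 ^ k * b) ^^^ (m + 2 ^ k * n) = (a ^^^ m) + 2 ^ k * (b ^^^ n) := by
  apply Nat.eq_of_testBit_eq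
  intro i
  rw [Nat.testBit_xor, add_comm a, add_comm m, Nat.testBit_two_pow_mul_add _ ha,
    Nat.testBit_two_pow_mul_add _ hm, add_comm (a ^^^ m),
    Nat.testBit_two_pow_mul_add _ (Nat.xor_lt_two_pow ha hm)]
  split <;> simp

theorem xor_ones (k a : ℕ) (ha : a < 2 ^ k) : a ^^^ (2 ^ k - 1) = 2 ^ k - 1 - a := by
  apply Nat.eq_of_testBit_eq
  intro i
  rw [Nat.testBit_xor, Nat.testBit_two_pow_sub_one, show 2 ^ k - 1 - a = 2 ^ k - (a + 1) by omega,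
    Nat.testBit_two_pow_sub_succ ha]
  by_cases hi : i < k
  · simp [hi]
  · simp only [hi, decide_false, Bool.false_and, Bool.xor_false]
    exact Nat.testBit_lt_two_pow (lt_of_lt_of_le ha (Nat.pow_le_pow_right (by norm_num) (by omega)))

/-- one step of the digit extraction: shift by 30 and mask -/
theorem ext_step (K r Q m' : ℕ) (hK : 96 ≤ K) (hr : r < 2 ^ 96) :
    ((r + 2 ^ K * Q) / 2 ^ 30) &&& ((2 ^ 66 - 1) + 2 ^ K * m') =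
      r / 2 ^ 30 + 2 ^ K * ((Q / 2 ^ 30) &&& m') := by
  obtain ⟨j, rfl⟩ : ∃ j, K = 30 + (66 + j) := ⟨K - 96, by omega⟩
  have h1 : (r + 2 ^ (30 + (66 + j)) * Q) / 2 ^ 30 = r / 2 ^ 30 + 2 ^ (66 + j) * Q := by
    rw [pow_add, mul_assoc, Nat.add_mul_div_left _ _ (by positivity)]
  have hr2 : r / 2 ^ 30 < 2 ^ 66 := by
    rw [Nat.div_lt_iff_lt_mul (by positivity), ← pow_add]; exact hr
  have h66 : (2 : ℕ) ^ 66 ≤ 2 ^ (66 + j) := Nat.pow_le_pow_right (by norm_num) (by omega)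
  have h2 : (2 : ℕ) ^ 66 - 1 + 2 ^ (30 + (66 + j)) * m' =
      (2 ^ 66 - 1) + 2 ^ (66 + j) * (2 ^ 30 * m') := by
    rw [pow_add]; ring
  have h3 : Q &&& (2 ^ 30 * m') = 2 ^ 30 * ((Q / 2 ^ 30) &&& m') := by
    have hQ : Q = Q % 2 ^ 30 + 2 ^ 30 * (Q / 2 ^ 30) := (Nat.mod_add_div Q (2 ^ 30)).symm
    have := land_split 30 (Q % 2 ^ 30) (Q / 2 ^ 30) 0 m' (Nat.mod_lt _ (by positivity))
      (by positivity)
    rw [← hQ, zero_add, Nat.and_zero, zero_add] at this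
    exact this
  rw [h1, h2, land_split (66 + j) _ _ _ _ (lt_of_lt_of_le hr2 h66)
    (by have : (0 : ℕ) < 2 ^ 66 := by positivity
        omega), h3,
    Nat.and_two_pow_sub_one_eq_mod, Nat.mod_eq_of_lt hr2, pow_add]
  ring

/-- the representation -/
def Rep (X : ℕ) (x0 x3 x4 x5 : ℤ) : Prop :=
  (X : ℤ) = (x0 + 2 ^ 60) + 2 ^ 288 * ((x3 + 2 ^ 60) + 2 ^ 96 * ((x4 + 2 ^ 60) +
    2 ^ 96 * (x5 + 2 ^ 60)))

/-- `2^60 (1 + B^3 + B^4 + B^5)` -/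
def cZU : ℕ := 3599131035634557106248430806194212907364233125300866044474178116140570167458050380246651208067101782474316168995638053978023566410965218553615954056737079714381824

theorem cZU_eq : cZU = 2 ^ 60 + 2 ^ 288 * (2 ^ 60 + 2 ^ 96 * (2 ^ 60 + 2 ^ 96 * 2 ^ 60)) := by
  decide +kernel

/-- `2^60 (B^3 + B^4 + B^5)` -/
def cZV : ℕ := 3599131035634557106248430806194212907364233125300866044474178116140570167458050380246651208067101782474316168995638053978023566410965218553615952903815575107534848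

theorem cZV_eq : cZV = 2 ^ 288 * (2 ^ 60 + 2 ^ 96 * (2 ^ 60 + 2 ^ 96 * 2 ^ 60)) := by
  decide +kernel

/-- `(2^60 - 1) (B^3 + B^4 + B^5)` -/
def cLV : ℕ := 3599131035634557103126682255878220675982635895468297732529185494263319976498252483579789943334715333437914951687799904895902076960703865426389902086708128435404800

theorem cLV_eq : cLV = 2 ^ 288 * ((2 ^ 60 - 1) + 2 ^ 96 * ((2 ^ 60 - 1) +
    2 ^ 96 * (2 ^ 60 - 1))) := by
  decide +kernel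

/-- `B - 1` -/
def cB1 : ℕ := 79228162514264337593543950335

theorem cB1_eq : cB1 = 2 ^ 96 - 1 := by decide +kernel

/-- `B` -/
def cB : ℕ := 79228162514264337593543950336

theorem cB_eq : cB = 2 ^ 96 := by decide +kernel

/-- `2^60` -/
def cZ : ℕ := 1152921504606846976

theorem cZ_eq : cZ = 2 ^ 60 := by decide +kernel

/-- mask of the digits -/
def cM : ℕ := 230344386280611654796777823046113633839929322789422858534402406811119240526355426439118816051562127629319833598412997305511386760851512634304195008814065655048306687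

theorem cM_eq : cM = (2 ^ 66 - 1) + 2 ^ 288 * ((2 ^ 66 - 1) + 2 ^ 96 * ((2 ^ 66 - 1) +
    2 ^ 96 * (2 ^ 66 - 1))) := by decide +kernel

/-- offset of the product -/
def cP : ℕ := 12953744983771201822296130842129647651675960741279163903960573565923507339054799141736877971422906381717301298436890255382508724548625748049098054231198045123487534687151488764121657118739417101385912767347560742145464173076585232486838182963533464818989954939482382716200390573547136454563680324304369037623578838037732261888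

theorem cP_eq : cP = cZU * cZU + 2 ^ 30 * cZU + 2 ^ 1056 := by decide +kernel

/-- `1 - signs` -/
def nm (X : ℕ) : ℕ := Nat.sub cZV (Nat.land X cZV)

/-- upper bound of the sum of the absolute values of the slopes -/
def gn (X : ℕ) : ℕ :=
  Nat.add (Nat.mod (Nat.xor (Nat.land X cLV) (Nat.sub (nm X) (Nat.shiftRight (nm X) 60))) cB1) 3

/-- absolute value of the centre -/
def an (X : ℕ) : ℕ := Nat.add (Nat.sub (Nat.mod X cB) cZ) (Nat.sub cZ (Nat.mod X cB))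

/-- product of the digits polynomials, rescaled -/
def pr (X Y : ℕ) : ℕ :=
  Nat.land (Nat.shiftRight (Nat.sub (Nat.add (Nat.mul X Y) cP) (Nat.mul cZU (Nat.add X Y))) 30) cM

theorem digit_abs (d : ℕ) (hd : d < 2 ^ 61) :
    ∃ ν : ℕ, 2 ^ 60 - (d &&& 2 ^ 60) = 2 ^ 60 * ν ∧ ν ≤ 1 ∧
      |((d : ℤ) - 2 ^ 60)| ≤ (((d &&& (2 ^ 60 - 1)) ^^^ (2 ^ 60 * ν - ν) : ℕ) : ℤ) + 1 ∧
      (d &&& (2 ^ 60 - 1)) ^^^ (2 ^ 60 * ν - ν) < 2 ^ 60 := by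
  rcases lt_or_ge d (2 ^ 60) with h | h
  · refine ⟨1, ?_, le_refl _, ?_, ?_⟩
    · have : d &&& 2 ^ 60 = 0 := by
        have := land_split 60 d 0 0 1 h (by positivity)
        simpa using this
      rw [this]; rfl
    · rw [Nat.and_two_pow_sub_one_eq_mod, Nat.mod_eq_of_lt h, mul_one, xor_ones 60 d h]
      have h' : (d : ℤ) < 2 ^ 60 := by exact_mod_cast h
      rw [abs_of_nonpos (by linarith), Nat.cast_sub (by omega), Nat.cast_sub (by norm_num)]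
      push_cast; linarith
    · rw [Nat.and_two_pow_sub_one_eq_mod, Nat.mod_eq_of_lt h, mul_one, xor_ones 60 d h]
      have : (0 : ℕ) < 2 ^ 60 := by positivity
      omega
  · obtain ⟨c, rfl⟩ : ∃ c, d = c + 2 ^ 60 * 1 := ⟨d - 2 ^ 60, by omega⟩
    have hc : c < 2 ^ 60 := by norm_num at hd ⊢; omega
    refine ⟨0, ?_, by omega, ?_, ?_⟩
    · have := land_split 60 c 1 0 1 hc (by positivity)
      simp only [Nat.and_zero, zero_add, mul_one, Nat.and_self] at this ⊢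
      rw [this]; omega
    · rw [Nat.and_two_pow_sub_one_eq_mod, Nat.add_mul_mod_self_left, Nat.mod_eq_of_lt hc]
      simp only [mul_zero, Nat.sub_self, Nat.xor_zero]
      push_cast
      rw [add_sub_cancel_right, abs_of_nonneg (by positivity)]
      linarith
    · rw [Nat.and_two_pow_sub_one_eq_mod, Nat.add_mul_mod_self_left, Nat.mod_eq_of_lt hc]
      simpa using hc

/-- digits as natural numbers -/
theorem Rep.nat {X : ℕ} {x0 x3 x4 x5 : ℤ} (h : Rep X x0 x3 x4 x5) (h0 : |x0| < 2 ^ 60)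
    (h3 : |x3| < 2 ^ 60) (h4 : |x4| < 2 ^ 60) (h5 : |x5| < 2 ^ 60) :
    ∃ d0 d3 d4 d5 : ℕ, d0 < 2 ^ 61 ∧ d3 < 2 ^ 61 ∧ d4 < 2 ^ 61 ∧ d5 < 2 ^ 61 ∧
      (d0 : ℤ) = x0 + 2 ^ 60 ∧ (d3 : ℤ) = x3 + 2 ^ 60 ∧ (d4 : ℤ) = x4 + 2 ^ 60 ∧
      (d5 : ℤ) = x5 + 2 ^ 60 ∧ X = d0 + 2 ^ 288 * (d3 + 2 ^ 96 * (d4 + 2 ^ 96 * d5)) := by
  rw [abs_lt] at h0 h3 h4 h5
  obtain ⟨d0, hd0⟩ := Int.eq_ofNat_of_zero_le (show 0 ≤ x0 + 2 ^ 60 by linarith [h0.1])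
  obtain ⟨d3, hd3⟩ := Int.eq_ofNat_of_zero_le (show 0 ≤ x3 + 2 ^ 60 by linarith [h3.1])
  obtain ⟨d4, hd4⟩ := Int.eq_ofNat_of_zero_le (show 0 ≤ x4 + 2 ^ 60 by linarith [h4.1])
  obtain ⟨d5, hd5⟩ := Int.eq_ofNat_of_zero_le (show 0 ≤ x5 + 2 ^ 60 by linarith [h5.1])
  refine ⟨d0, d3, d4, d5, ?_, ?_, ?_, ?_, hd0.symm, hd3.symm, hd4.symm, hd5.symm, ?_⟩
  · zify; linarith [h0.2]
  · zify; linarith [h3.2]
  · zify; linarith [h4.2]
  · zify; linarith [h5.2]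
  · unfold Rep at h; zify; rw [h, hd0, hd3, hd4, hd5]

theorem an_spec {X : ℕ} {x0 x3 x4 x5 : ℤ} (h : Rep X x0 x3 x4 x5) (h0 : |x0| < 2 ^ 60)
    (h3 : |x3| < 2 ^ 60) (h4 : |x4| < 2 ^ 60) (h5 : |x5| < 2 ^ 60) : |x0| = (an X : ℤ) := by
  obtain ⟨d0, d3, d4, d5, hd0, hd3, hd4, hd5, e0, e3, e4, e5, rfl⟩ := h.nat h0 h3 h4 h5
  have hm : Nat.mod (d0 + 2 ^ 288 * (d3 + 2 ^ 96 * (d4 + 2 ^ 96 * d5))) cB = d0 := by
    show (d0 + 2 ^ 288 * (d3 + 2 ^ 96 * (d4 + 2 ^ 96 * d5))) % cB = d0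
    rw [cB_eq, show (2 : ℕ) ^ 288 = 2 ^ 96 * 2 ^ 192 by rw [← pow_add], mul_assoc,
      Nat.add_mul_mod_self_left, Nat.mod_eq_of_lt (lt_trans hd0 (by norm_num))]
  unfold an
  rw [hm]
  show |x0| = (((d0 - cZ) + (cZ - d0) : ℕ) : ℤ)
  rw [cZ_eq]
  rcases le_total (2 ^ 60) d0 with hh | hh
  · have h' : (2 : ℤ) ^ 60 ≤ d0 := by exact_mod_cast hh
    rw [Nat.sub_eq_zero_of_le hh, add_zero, Nat.cast_sub hh, abs_of_nonneg (by linarith)]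
    push_cast; linarith
  · have h' : (d0 : ℤ) ≤ 2 ^ 60 := by exact_mod_cast hh
    rw [Nat.sub_eq_zero_of_le hh, zero_add, Nat.cast_sub hh, abs_of_nonpos (by linarith)]
    push_cast; linarith

theorem mod_cen {X : ℕ} {x0 x3 x4 x5 : ℤ} (h : Rep X x0 x3 x4 x5) (h0 : |x0| < 2 ^ 60)
    (h3 : |x3| < 2 ^ 60) (h4 : |x4| < 2 ^ 60) (h5 : |x5| < 2 ^ 60) :
    ((Nat.mod X cB : ℕ) : ℤ) = x0 + 2 ^ 60 := by
  obtain ⟨d0, d3, d4, d5, hd0, hd3, hd4, hd5, e0, e3, e4, e5, rfl⟩ := h.nat h0 h3 h4 h5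
  have hm : Nat.mod (d0 + 2 ^ 288 * (d3 + 2 ^ 96 * (d4 + 2 ^ 96 * d5))) cB = d0 := by
    show (d0 + 2 ^ 288 * (d3 + 2 ^ 96 * (d4 + 2 ^ 96 * d5))) % cB = d0
    rw [cB_eq, show (2 : ℕ) ^ 288 = 2 ^ 96 * 2 ^ 192 by rw [← pow_add], mul_assoc,
      Nat.add_mul_mod_self_left, Nat.mod_eq_of_lt (lt_trans hd0 (by norm_num))]
  rw [hm, e0]

theorem sum_mod (v3 v4 v5 : ℕ) (h3 : v3 < 2 ^ 60) (h4 : v4 < 2 ^ 60) (h5 : v5 < 2 ^ 60) :
    (2 ^ 288 * (v3 + 2 ^ 96 * (v4 + 2 ^ 96 * v5))) % (2 ^ 96 - 1) = v3 + v4 + v5 := by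
  have h1 : 2 ^ 96 ≡ 1 [MOD (2 ^ 96 - 1)] := by
    unfold Nat.ModEq; decide +kernel
  have h2 : 2 ^ 288 ≡ 1 [MOD (2 ^ 96 - 1)] := by
    unfold Nat.ModEq; decide +kernel
  have h : 2 ^ 288 * (v3 + 2 ^ 96 * (v4 + 2 ^ 96 * v5)) ≡
      1 * (v3 + 1 * (v4 + 1 * v5)) [MOD (2 ^ 96 - 1)] :=
    h2.mul ((Nat.ModEq.refl _).add (h1.mul ((Nat.ModEq.refl _).add (h1.mul (Nat.ModEq.refl _)))))
  have hlt : v3 + v4 + v5 < 2 ^ 96 - 1 := by
    have : (2 : ℕ) ^ 60 + 2 ^ 60 + 2 ^ 60 < 2 ^ 96 - 1 := by norm_num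
    omega
  have := h.symm
  unfold Nat.ModEq at this
  rw [← this, show 1 * (v3 + 1 * (v4 + 1 * v5)) = v3 + v4 + v5 by ring, Nat.mod_eq_of_lt hlt]

theorem gn_spec {X : ℕ} {x0 x3 x4 x5 : ℤ} (h : Rep X x0 x3 x4 x5) (h0 : |x0| < 2 ^ 60)
    (h3 : |x3| < 2 ^ 60) (h4 : |x4| < 2 ^ 60) (h5 : |x5| < 2 ^ 60) :
    |x3| + |x4| + |x5| ≤ (gn X : ℤ) := by
  obtain ⟨d0, d3, d4, d5, hd0, hd3, hd4, hd5, e0, e3, e4, e5, rfl⟩ := h.nat h0 h3 h4 h5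
  obtain ⟨n3, a3, b3, c3, f3⟩ := digit_abs d3 hd3
  obtain ⟨n4, a4, b4, c4, f4⟩ := digit_abs d4 hd4
  obtain ⟨n5, a5, b5, c5, f5⟩ := digit_abs d5 hd5
  have h61 : (2 : ℕ) ^ 61 < 2 ^ 96 := by norm_num
  have h60 : (2 : ℕ) ^ 60 < 2 ^ 96 := by norm_num
  have hl (d : ℕ) : d &&& 2 ^ 60 ≤ 2 ^ 60 := Nat.and_le_right
  have hnm : nm (d0 + 2 ^ 288 * (d3 + 2 ^ 96 * (d4 + 2 ^ 96 * d5))) =
      2 ^ 288 * (2 ^ 60 * n3 + 2 ^ 96 * (2 ^ 60 * n4 + 2 ^ 96 * (2 ^ 60 * n5))) := by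
    show cZV - ((d0 + 2 ^ 288 * (d3 + 2 ^ 96 * (d4 + 2 ^ 96 * d5))) &&& cZV) = _
    rw [cZV_eq]
    have s1 := land_split 288 d0 (d3 + 2 ^ 96 * (d4 + 2 ^ 96 * d5)) 0
      (2 ^ 60 + 2 ^ 96 * (2 ^ 60 + 2 ^ 96 * 2 ^ 60)) (lt_of_lt_of_le hd0 (Nat.pow_le_pow_right (by norm_num) (by norm_num))) (by positivity)
    rw [zero_add, Nat.and_zero, zero_add] at s1
    rw [s1, land_split 96 _ _ _ _ (lt_trans hd3 h61) h60, land_split 96 _ _ _ _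
      (lt_trans hd4 h61) h60, ← a3, ← a4, ← a5]
    have q3 := hl d3
    have q4 := hl d4
    have q5 := hl d5
    generalize d3 &&& 2 ^ 60 = t3 at *
    generalize d4 &&& 2 ^ 60 = t4 at *
    generalize d5 &&& 2 ^ 60 = t5 at *
    zify [q3, q4, q5]
    rw [Nat.cast_sub]
    · push_cast; ring
    · have : t3 + 2 ^ 96 * (t4 + 2 ^ 96 * t5) ≤ 2 ^ 60 + 2 ^ 96 * (2 ^ 60 + 2 ^ 96 * 2 ^ 60) := by
        have := Nat.mul_le_mul_left (2 ^ 96) q5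
        have := Nat.mul_le_mul_left (2 ^ 96) (Nat.add_le_add q4 this)
        exact Nat.add_le_add q3 this
      exact Nat.mul_le_mul_left _ this
  have hsh : Nat.sub (nm (d0 + 2 ^ 288 * (d3 + 2 ^ 96 * (d4 + 2 ^ 96 * d5))))
      (Nat.shiftRight (nm (d0 + 2 ^ 288 * (d3 + 2 ^ 96 * (d4 + 2 ^ 96 * d5)))) 60) =
      2 ^ 288 * ((2 ^ 60 * n3 - n3) + 2 ^ 96 * ((2 ^ 60 * n4 - n4) +
        2 ^ 96 * (2 ^ 60 * n5 - n5))) := by
    rw [hnm]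
    show _ - (2 ^ 288 * (2 ^ 60 * n3 + 2 ^ 96 * (2 ^ 60 * n4 + 2 ^ 96 * (2 ^ 60 * n5)))) >>> 60 = _
    rw [Nat.shiftRight_eq_div_pow, show 2 ^ 288 * (2 ^ 60 * n3 + 2 ^ 96 * (2 ^ 60 * n4 +
      2 ^ 96 * (2 ^ 60 * n5))) = 2 ^ 60 * (2 ^ 288 * (n3 + 2 ^ 96 * (n4 + 2 ^ 96 * n5))) by ring,
      Nat.mul_div_cancel_left _ (by positivity)]
    have q (n : ℕ) : n ≤ 2 ^ 60 * n := Nat.le_mul_of_pos_left _ (by positivity)
    zify [q n3, q n4, q n5]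
    rw [Nat.cast_sub (q _)]
    push_cast; ring
  have hlow : Nat.land (d0 + 2 ^ 288 * (d3 + 2 ^ 96 * (d4 + 2 ^ 96 * d5))) cLV =
      2 ^ 288 * ((d3 &&& (2 ^ 60 - 1)) + 2 ^ 96 * ((d4 &&& (2 ^ 60 - 1)) +
        2 ^ 96 * (d5 &&& (2 ^ 60 - 1)))) := by
    show (d0 + 2 ^ 288 * (d3 + 2 ^ 96 * (d4 + 2 ^ 96 * d5))) &&& cLV = _
    rw [cLV_eq]
    have s1 := land_split 288 d0 (d3 + 2 ^ 96 * (d4 + 2 ^ 96 * d5)) 0
      ((2 ^ 60 - 1) + 2 ^ 96 * ((2 ^ 60 - 1) + 2 ^ 96 * (2 ^ 60 - 1)))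
      (lt_of_lt_of_le hd0 (Nat.pow_le_pow_right (by norm_num) (by norm_num))) (by positivity)
    rw [zero_add, Nat.and_zero, zero_add] at s1
    rw [s1, land_split 96 _ _ _ _ (lt_trans hd3 h61) (by norm_num), land_split 96 _ _ _ _
      (lt_trans hd4 h61) (by norm_num)]
  have hx : Nat.xor (Nat.land (d0 + 2 ^ 288 * (d3 + 2 ^ 96 * (d4 + 2 ^ 96 * d5))) cLV)
      (Nat.sub (nm (d0 + 2 ^ 288 * (d3 + 2 ^ 96 * (d4 + 2 ^ 96 * d5))))
      (Nat.shiftRight (nm (d0 + 2 ^ 288 * (d3 + 2 ^ 96 * (d4 + 2 ^ 96 * d5)))) 60)) =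
      2 ^ 288 * (((d3 &&& (2 ^ 60 - 1)) ^^^ (2 ^ 60 * n3 - n3)) +
        2 ^ 96 * (((d4 &&& (2 ^ 60 - 1)) ^^^ (2 ^ 60 * n4 - n4)) +
        2 ^ 96 * ((d5 &&& (2 ^ 60 - 1)) ^^^ (2 ^ 60 * n5 - n5)))) := by
    rw [hsh, hlow]
    have hm (d : ℕ) : d &&& (2 ^ 60 - 1) < 2 ^ 96 :=
      lt_of_le_of_lt Nat.and_le_right (by norm_num)
    have hn (n : ℕ) (hn : n ≤ 1) : 2 ^ 60 * n - n < 2 ^ 96 := by
      have : 2 ^ 60 * n ≤ 2 ^ 60 * 1 := Nat.mul_le_mul_left _ hn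
      omega
    have s1 := xor_split 288 0 ((d3 &&& (2 ^ 60 - 1)) + 2 ^ 96 * ((d4 &&& (2 ^ 60 - 1)) +
        2 ^ 96 * (d5 &&& (2 ^ 60 - 1)))) 0 ((2 ^ 60 * n3 - n3) + 2 ^ 96 * ((2 ^ 60 * n4 - n4) +
        2 ^ 96 * (2 ^ 60 * n5 - n5))) (by positivity) (by positivity)
    rw [zero_add, zero_add, Nat.xor_zero, zero_add] at s1
    show (_ : ℕ) ^^^ (_ : ℕ) = _
    rw [s1, xor_split 96 _ _ _ _ (hm _) (hn _ b3), xor_split 96 _ _ _ _ (hm _) (hn _ b4)]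
  unfold gn
  rw [hx]
  show |x3| + |x4| + |x5| ≤ (((2 ^ 288 * _) % cB1 + 3 : ℕ) : ℤ)
  rw [cB1_eq, sum_mod _ _ _ f3 f4 f5]
  have g3 : |x3| = |(d3 : ℤ) - 2 ^ 60| := by rw [e3]; congr 1; ring
  have g4 : |x4| = |(d4 : ℤ) - 2 ^ 60| := by rw [e4]; congr 1; ring
  have g5 : |x5| = |(d5 : ℤ) - 2 ^ 60| := by rw [e5]; congr 1; ring
  rw [g3, g4, g5]
  push_cast at c3 c4 c5 ⊢
  linarith

/-- the product of the digit polynomials -/
theorem pr_spec {X Y : ℕ} {x0 x3 x4 x5 y0 y3 y4 y5 : ℤ} (hX : Rep X x0 x3 x4 x5)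
    (hY : Rep Y y0 y3 y4 y5) {H K : ℤ} (hH : |x0| + |x3| + |x4| + |x5| ≤ H)
    (hK : |y0| + |y3| + |y4| + |y5| ≤ K) (hH' : H < 2 ^ 38) (hK' : K < 2 ^ 38) :
    Rep (pr X Y) ((x0 * y0) / 2 ^ 30) ((x0 * y3 + x3 * y0) / 2 ^ 30)
      ((x0 * y4 + x4 * y0) / 2 ^ 30) ((x0 * y5 + x5 * y0) / 2 ^ 30) := by
  have p0 := abs_nonneg x0
  have p3 := abs_nonneg x3
  have p4 := abs_nonneg x4
  have p5 := abs_nonneg x5
  have q0 := abs_nonneg y0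
  have q3 := abs_nonneg y3
  have q4 := abs_nonneg y4
  have q5 := abs_nonneg y5
  have hH0 : 0 ≤ H := by linarith
  have hK0 : 0 ≤ K := by linarith
  have hHK : H * K ≤ 2 ^ 76 := by
    have := mul_le_mul hH'.le hK'.le hK0 (by norm_num)
    calc H * K ≤ 2 ^ 38 * 2 ^ 38 := this
      _ = 2 ^ 76 := by norm_num
  have key (a b c d : ℤ) (h1 : |a| + |c| ≤ H) (h2 : |b| ≤ K) (h3 : |d| ≤ K) :
      |a * b + c * d| ≤ 2 ^ 76 := by
    have e1 : |a * b| ≤ |a| * K := by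
      rw [abs_mul]; exact mul_le_mul_of_nonneg_left h2 (abs_nonneg _)
    have e2 : |c * d| ≤ |c| * K := by
      rw [abs_mul]; exact mul_le_mul_of_nonneg_left h3 (abs_nonneg _)
    have e3 := abs_add_le (a * b) (c * d)
    have e4 : (|a| + |c|) * K ≤ H * K := mul_le_mul_of_nonneg_right h1 hK0
    linarith
  have t0 : |x0 * y0| ≤ 2 ^ 76 := by
    have := key x0 y0 0 0 (by simp; linarith) (by linarith) (by simpa using hK0)
    simpa using this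
  have t3 : |x0 * y3 + x3 * y0| ≤ 2 ^ 76 := key _ _ _ _ (by linarith) (by linarith) (by linarith)
  have t4 : |x0 * y4 + x4 * y0| ≤ 2 ^ 76 := key _ _ _ _ (by linarith) (by linarith) (by linarith)
  have t5 : |x0 * y5 + x5 * y0| ≤ 2 ^ 76 := key _ _ _ _ (by linarith) (by linarith) (by linarith)
  have j6 : |x3 * y3| ≤ 2 ^ 76 := by
    have := key x3 y3 0 0 (by simp; linarith) (by linarith) (by simpa using hK0)
    simpa using this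
  have j7 : |x3 * y4 + x4 * y3| ≤ 2 ^ 76 := key _ _ _ _ (by linarith) (by linarith) (by linarith)
  have j8 : |x3 * y5 + x4 * y4 + x5 * y3| ≤ 2 ^ 77 := by
    have e1 := key x3 y5 x4 y4 (by linarith) (by linarith) (by linarith)
    have e2 := key x5 y3 0 0 (by simp; linarith) (by linarith) (by simpa using hK0)
    have e3 := abs_add_le (x3 * y5 + x4 * y4) (x5 * y3)
    rw [zero_mul, add_zero] at e2
    calc |x3 * y5 + x4 * y4 + x5 * y3| ≤ 2 ^ 76 + 2 ^ 76 := by linarith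
      _ = 2 ^ 77 := by norm_num
  have j9 : |x4 * y5 + x5 * y4| ≤ 2 ^ 76 := key _ _ _ _ (by linarith) (by linarith) (by linarith)
  have j10 : |x5 * y5| ≤ 2 ^ 76 := by
    have := key x5 y5 0 0 (by simp; linarith) (by linarith) (by simpa using hK0)
    simpa using this
  rw [abs_le] at t0 t3 t4 t5 j6 j7 j8 j9 j10
  obtain ⟨r0, hr0⟩ := Int.eq_ofNat_of_zero_le (show 0 ≤ x0 * y0 + 2 ^ 90 by linarith [t0.1])
  obtain ⟨r3, hr3⟩ := Int.eq_ofNat_of_zero_le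
    (show 0 ≤ (x0 * y3 + x3 * y0) + 2 ^ 90 by linarith [t3.1])
  obtain ⟨r4, hr4⟩ := Int.eq_ofNat_of_zero_le
    (show 0 ≤ (x0 * y4 + x4 * y0) + 2 ^ 90 by linarith [t4.1])
  obtain ⟨r5, hr5⟩ := Int.eq_ofNat_of_zero_le
    (show 0 ≤ (x0 * y5 + x5 * y0) + 2 ^ 90 by linarith [t5.1])
  obtain ⟨j, hj⟩ := Int.eq_ofNat_of_zero_le
    (show 0 ≤ (x3 * y3 + (x3 * y4 + x4 * y3) * 2 ^ 96 + (x3 * y5 + x4 * y4 + x5 * y3) * 2 ^ 192 +
      (x4 * y5 + x5 * y4) * 2 ^ 288 + x5 * y5 * 2 ^ 384) + 2 ^ 480 by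
      nlinarith [j6.1, j7.1, j8.1, j9.1, j10.1])
  have hR : Nat.sub (Nat.add (Nat.mul X Y) cP) (Nat.mul cZU (Nat.add X Y)) =
      r0 + 2 ^ 288 * (r3 + 2 ^ 96 * (r4 + 2 ^ 96 * (r5 + 2 ^ 96 * j))) := by
    show X * Y + cP - cZU * (X + Y) = _
    have : ((X * Y + cP : ℕ) : ℤ) = ((cZU * (X + Y) + (r0 + 2 ^ 288 * (r3 + 2 ^ 96 *
        (r4 + 2 ^ 96 * (r5 + 2 ^ 96 * j)))) : ℕ) : ℤ) := by
      rw [cP_eq]
      push_cast
      unfold Rep at hX hY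
      rw [← hr0, ← hr3, ← hr4, ← hr5, ← hj, hX, hY, cZU_eq]
      push_cast
      ring
    have := Int.ofNat_inj.mp this
    omega
  have b0 : r0 < 2 ^ 96 := by zify; rw [← hr0]; linarith [t0.2]
  have b3 : r3 < 2 ^ 96 := by zify; rw [← hr3]; linarith [t3.2]
  have b4 : r4 < 2 ^ 96 := by zify; rw [← hr4]; linarith [t4.2]
  have b5 : r5 < 2 ^ 96 := by zify; rw [← hr5]; linarith [t5.2]
  have hpr : pr X Y = r0 / 2 ^ 30 + 2 ^ 288 * (r3 / 2 ^ 30 + 2 ^ 96 * (r4 / 2 ^ 30 +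
      2 ^ 96 * (r5 / 2 ^ 30))) := by
    unfold pr
    rw [hR]
    show (_ >>> 30) &&& cM = _
    rw [Nat.shiftRight_eq_div_pow, cM_eq, ext_step 288 _ _ _ (by norm_num) b0,
      ext_step 96 _ _ _ (by norm_num) b3, ext_step 96 _ _ _ (by norm_num) b4]
    have := ext_step 96 r5 j 0 (by norm_num) b5
    rw [mul_zero, add_zero, Nat.and_zero, mul_zero, add_zero] at this
    rw [this]
  have hd (t : ℤ) : (t + 2 ^ 90) / 2 ^ 30 = t / 2 ^ 30 + 2 ^ 60 := by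
    rw [show (t : ℤ) + 2 ^ 90 = t + 2 ^ 60 * 2 ^ 30 by norm_num,
      Int.add_mul_ediv_right _ _ (by norm_num)]
  unfold Rep
  rw [hpr, ← hd, ← hd, ← hd, ← hd, hr0, hr3, hr4, hr5]
  push_cast
  rfl

end Pool.TM
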