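import Pool.Agent.Work.MP_b5407d_tm.Dig

/-!
# First order Taylor models in three noise variables
-/

set_option autoImplicit false
set_option exponentiation.threshold 3000

namespace Pool.TM

/-- operations -/
class Ops (α : Type) where
  add : α → α → α
  sub : α → α → α
  mul : α → α → α
  neg : α → α
  inv : α → α
  /-- `scl n x = (n / 2^30) * x` -/
  scl : ℕ → α → α
  /-- `n / 2^30` -/
  c : ℕ → α
  /-- `n / d` -/
  q : ℕ → ℕ → α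

noncomputable instance instOpsReal : Ops ℝ where
  add := fun a b => a + b
  sub := fun a b => a - b
  mul := fun a b => a * b
  neg := fun a => -a
  inv := fun a => a⁻¹
  scl := fun n x => (n : ℝ) / 2 ^ 30 * x
  c := fun n => (n : ℝ) / 2 ^ 30
  q := fun n d => (n : ℝ) / d

/-- Taylor model: packed polynomial, error, bound of the coefficients (`2^60` and more: no claim) -/
structure R where
  X : ℕ
  e : ℕ
  b : ℕ

/-- no information -/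
def bad : R := ⟨0, 0, cZ⟩

def R.add (x y : R) : R := ⟨Nat.sub (Nat.add x.X y.X) cZU, Nat.add x.e y.e, Nat.add x.b y.b⟩

def R.sub (x y : R) : R := ⟨Nat.sub (Nat.add x.X cZU) y.X, Nat.add x.e y.e, Nat.add x.b y.b⟩

/-- `2 cZU` -/
def cZU2 : ℕ := 7198262071269114212496861612388425814728466250601732088948356232281140334916100760493302416134203564948632337991276107956047132821930437107231908113474159428763648

theorem cZU2_eq : cZU2 = cZU + cZU := by decide +kernel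

def R.neg (x : R) : R := ⟨Nat.sub cZU2 x.X, x.e, x.b⟩

/-- `2^60 - 1` -/
def cZ1 : ℕ := 1152921504606846975

/-- `2^47` -/
def c47 : ℕ := 140737488355328

def mulAux (X Y e e' b b' G G' H H' : ℕ) : R :=
  match Nat.ble (Nat.add (Nat.add b b') (Nat.shiftLeft (Nat.add H H') 22)) cZ1 with
  | true => ⟨pr X Y, Nat.add (Nat.shiftRight (Nat.add (Nat.mul G G')
      (Nat.add (Nat.mul (Nat.add H e) e') (Nat.mul H' e))) 30) 6, c47⟩
  | false => bad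

/-- sum of the absolute values of all coefficients -/
def hn (X : ℕ) : ℕ := Nat.add (an X) (gn X)

def R.mul (x y : R) : R :=
  mulAux x.X y.X x.e y.e x.b y.b (gn x.X) (gn y.X) (hn x.X) (hn y.X)

/-- constant `n / 2^30` -/
def R.c (n : ℕ) : R := ⟨Nat.add cZU n, 0, n⟩

/-- constant `n / d` -/
def R.q (n d : ℕ) : R := ⟨Nat.add cZU (Nat.div (Nat.shiftLeft n 30) d), 1,
  Nat.div (Nat.shiftLeft n 30) d⟩

/-- `2^30 cZU` -/
def cZU30 : ℕ := 3864537523017258344695351890980764665397614708321772455373369131325659652006392458769932838041773382307623476450068652122173480113094927370318236304381071460953738734206976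

theorem cZU30_eq : cZU30 = 2 ^ 30 * cZU := by decide +kernel

/-- `2^89` -/
def cP89 : ℕ := 618970019642690137449562112

theorem cP89_eq : cP89 = 2 ^ 89 := by decide +kernel

/-- digits times `n / 2^30` -/
def sc (n X : ℕ) : ℕ :=
  Nat.land (Nat.shiftRight (Nat.sub (Nat.add (Nat.mul X n) cZU30) (Nat.mul n cZU)) 30) cM

/-- multiplication by `n / 2^30` -/
def R.scl (n : ℕ) (x : R) : R :=
  match Nat.ble (Nat.add (Nat.mul x.b n) (Nat.shiftLeft x.b 30)) cP89 with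
  | true => ⟨sc n x.X, Nat.add (Nat.shiftRight (Nat.mul x.e n) 30) 6,
      Nat.add (Nat.shiftRight (Nat.mul x.b n) 30) 1⟩
  | false => bad

/-- membership for fixed noise values -/
def Mem (d1 d2 d3 : ℝ) (T : R) (f : ℝ) : Prop :=
  T.b < 2 ^ 60 → ∃ x0 x3 x4 x5 : ℤ, Rep T.X x0 x3 x4 x5 ∧ |x0| ≤ T.b ∧ |x3| ≤ T.b ∧
    |x4| ≤ T.b ∧ |x5| ≤ T.b ∧
    |f * 2 ^ 30 - ((x0 : ℝ) + x3 * d1 + x4 * d2 + x5 * d3)| ≤ (T.e : ℝ)

/-- value of the representation -/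
def val (x0 x3 x4 x5 : ℤ) : ℤ :=
  (x0 + 2 ^ 60) + 2 ^ 288 * ((x3 + 2 ^ 60) + 2 ^ 96 * ((x4 + 2 ^ 60) + 2 ^ 96 * (x5 + 2 ^ 60)))

theorem val_nonneg (x0 x3 x4 x5 : ℤ) (h0 : |x0| ≤ 2 ^ 60) (h3 : |x3| ≤ 2 ^ 60)
    (h4 : |x4| ≤ 2 ^ 60) (h5 : |x5| ≤ 2 ^ 60) : 0 ≤ val x0 x3 x4 x5 := by
  rw [abs_le] at h0 h3 h4 h5
  unfold val
  have a5 : 0 ≤ x5 + 2 ^ 60 := by linarith
  have a4 : 0 ≤ x4 + 2 ^ 60 := by linarith
  have a3 : 0 ≤ x3 + 2 ^ 60 := by linarith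
  have a0 : 0 ≤ x0 + 2 ^ 60 := by linarith
  positivity

theorem cZU_val : (cZU : ℤ) = val 0 0 0 0 := by rw [cZU_eq]; unfold val; push_cast

variable {d1 d2 d3 : ℝ}

theorem mem_bad (f : ℝ) : Mem d1 d2 d3 bad f := by
  intro h
  exact absurd h (by show ¬ cZ < 2 ^ 60; rw [cZ_eq]; exact lt_irrefl _)

theorem mem_of_not {T : R} {f : ℝ} (h : ¬ T.b < 2 ^ 60) : Mem d1 d2 d3 T f := fun h' => absurd h' h

theorem abs_add_le' {x y : ℤ} {b b' : ℕ} (hx : |x| ≤ b) (hy : |y| ≤ b') :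
    |x + y| ≤ ((b + b' : ℕ) : ℤ) := by
  push_cast; exact (abs_add_le _ _).trans (add_le_add hx hy)

theorem abs_sub_le' {x y : ℤ} {b b' : ℕ} (hx : |x| ≤ b) (hy : |y| ≤ b') :
    |x - y| ≤ ((b + b' : ℕ) : ℤ) := by
  push_cast
  exact (abs_sub _ _).trans (add_le_add hx hy)

theorem mem_add {x y : R} {f g : ℝ} (hx : Mem d1 d2 d3 x f) (hy : Mem d1 d2 d3 y g) :
    Mem d1 d2 d3 (R.add x y) (f + g) := by
  intro hb
  have hb' : x.b + y.b < 2 ^ 60 := hb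
  obtain ⟨x0, x3, x4, x5, rx, bx0, bx3, bx4, bx5, ex⟩ := hx (by omega)
  obtain ⟨y0, y3, y4, y5, ry, by0, by3, by4, by5, ey⟩ := hy (by omega)
  have c0 := abs_add_le' bx0 by0
  have c3 := abs_add_le' bx3 by3
  have c4 := abs_add_le' bx4 by4
  have c5 := abs_add_le' bx5 by5
  have hz : ((x.b + y.b : ℕ) : ℤ) ≤ 2 ^ 60 := by exact_mod_cast hb'.le
  refine ⟨x0 + y0, x3 + y3, x4 + y4, x5 + y5, ?_, c0, c3, c4, c5, ?_⟩
  · have hn := val_nonneg _ _ _ _ (c0.trans hz) (c3.trans hz) (c4.trans hz) (c5.trans hz)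
    show ((x.X + y.X - cZU : ℕ) : ℤ) = val _ _ _ _
    have hX : (x.X : ℤ) = val x0 x3 x4 x5 := rx
    have hY : (y.X : ℤ) = val y0 y3 y4 y5 := ry
    have e : (x.X : ℤ) + y.X = val (x0 + y0) (x3 + y3) (x4 + y4) (x5 + y5) + cZU := by
      rw [hX, hY, cZU_val]; unfold val; ring
    have h2 : cZU ≤ x.X + y.X := by zify; rw [e]; linarith
    rw [Nat.cast_sub h2]; push_cast; linarith
  · show |_| ≤ ((x.e + y.e : ℕ) : ℝ)
    push_cast
    have : (f + g) * 2 ^ 30 - ((x0 + y0 : ℝ) + (x3 + y3) * d1 + (x4 + y4) * d2 + (x5 + y5) * d3) =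
        (f * 2 ^ 30 - (x0 + x3 * d1 + x4 * d2 + x5 * d3)) +
        (g * 2 ^ 30 - (y0 + y3 * d1 + y4 * d2 + y5 * d3)) := by ring
    rw [this]
    exact (abs_add_le _ _).trans (add_le_add ex ey)

theorem mem_sub {x y : R} {f g : ℝ} (hx : Mem d1 d2 d3 x f) (hy : Mem d1 d2 d3 y g) :
    Mem d1 d2 d3 (R.sub x y) (f - g) := by
  intro hb
  have hb' : x.b + y.b < 2 ^ 60 := hb
  obtain ⟨x0, x3, x4, x5, rx, bx0, bx3, bx4, bx5, ex⟩ := hx (by omega)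
  obtain ⟨y0, y3, y4, y5, ry, by0, by3, by4, by5, ey⟩ := hy (by omega)
  have c0 := abs_sub_le' bx0 by0
  have c3 := abs_sub_le' bx3 by3
  have c4 := abs_sub_le' bx4 by4
  have c5 := abs_sub_le' bx5 by5
  have hz : ((x.b + y.b : ℕ) : ℤ) ≤ 2 ^ 60 := by exact_mod_cast hb'.le
  refine ⟨x0 - y0, x3 - y3, x4 - y4, x5 - y5, ?_, c0, c3, c4, c5, ?_⟩
  · have hn := val_nonneg _ _ _ _ (c0.trans hz) (c3.trans hz) (c4.trans hz) (c5.trans hz)
    show ((x.X + cZU - y.X : ℕ) : ℤ) = val _ _ _ _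
    have hX : (x.X : ℤ) = val x0 x3 x4 x5 := rx
    have hY : (y.X : ℤ) = val y0 y3 y4 y5 := ry
    have e : (x.X : ℤ) + cZU = val (x0 - y0) (x3 - y3) (x4 - y4) (x5 - y5) + y.X := by
      rw [hX, hY, cZU_val]; unfold val; ring
    have h2 : y.X ≤ x.X + cZU := by zify; rw [e]; linarith
    rw [Nat.cast_sub h2]; push_cast; linarith
  · show |_| ≤ ((x.e + y.e : ℕ) : ℝ)
    push_cast
    have : (f - g) * 2 ^ 30 - ((x0 - y0 : ℝ) + (x3 - y3) * d1 + (x4 - y4) * d2 + (x5 - y5) * d3) =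
        (f * 2 ^ 30 - (x0 + x3 * d1 + x4 * d2 + x5 * d3)) -
        (g * 2 ^ 30 - (y0 + y3 * d1 + y4 * d2 + y5 * d3)) := by ring
    rw [this]
    exact (abs_sub _ _).trans (add_le_add ex ey)

theorem mem_neg {x : R} {f : ℝ} (hx : Mem d1 d2 d3 x f) : Mem d1 d2 d3 (R.neg x) (-f) := by
  intro hb
  have hb' : x.b < 2 ^ 60 := hb
  obtain ⟨x0, x3, x4, x5, rx, bx0, bx3, bx4, bx5, ex⟩ := hx hb'
  have hz : ((x.b : ℕ) : ℤ) ≤ 2 ^ 60 := by exact_mod_cast hb'.le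
  have c0 : |-x0| ≤ (x.b : ℤ) := by rwa [abs_neg]
  have c3 : |-x3| ≤ (x.b : ℤ) := by rwa [abs_neg]
  have c4 : |-x4| ≤ (x.b : ℤ) := by rwa [abs_neg]
  have c5 : |-x5| ≤ (x.b : ℤ) := by rwa [abs_neg]
  refine ⟨-x0, -x3, -x4, -x5, ?_, c0, c3, c4, c5, ?_⟩
  · have hn := val_nonneg _ _ _ _ (c0.trans hz) (c3.trans hz) (c4.trans hz) (c5.trans hz)
    show ((cZU2 - x.X : ℕ) : ℤ) = val _ _ _ _
    have hX : (x.X : ℤ) = val x0 x3 x4 x5 := rx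
    have e : (cZU2 : ℤ) = val (-x0) (-x3) (-x4) (-x5) + x.X := by
      rw [hX, cZU2_eq]; push_cast; rw [cZU_val]; unfold val; ring
    have h2 : x.X ≤ cZU2 := by zify; rw [e]; linarith
    rw [Nat.cast_sub h2]; linarith
  · show |_| ≤ ((x.e : ℕ) : ℝ)
    push_cast
    have : (-f) * 2 ^ 30 - ((-x0 : ℝ) + (-x3) * d1 + (-x4) * d2 + (-x5) * d3) =
        -(f * 2 ^ 30 - (x0 + x3 * d1 + x4 * d2 + x5 * d3)) := by ring
    rw [this, abs_neg]; exact ex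

theorem floor_err (t : ℤ) : 0 ≤ (t : ℝ) / 2 ^ 30 - ((t / 2 ^ 30 : ℤ) : ℝ) ∧
    (t : ℝ) / 2 ^ 30 - ((t / 2 ^ 30 : ℤ) : ℝ) ≤ 1 := by
  have h1 := Int.emod_add_mul_ediv t (2 ^ 30)
  have h2 := Int.emod_nonneg t (show (2 : ℤ) ^ 30 ≠ 0 by norm_num)
  have h3 := Int.emod_lt_of_pos t (show (0 : ℤ) < 2 ^ 30 by norm_num)
  have h1' : ((t % 2 ^ 30 : ℤ) : ℝ) + 2 ^ 30 * ((t / 2 ^ 30 : ℤ) : ℝ) = t := by exact_mod_cast h1
  have h2' : (0 : ℝ) ≤ ((t % 2 ^ 30 : ℤ) : ℝ) := by exact_mod_cast h2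
  have h3' : ((t % 2 ^ 30 : ℤ) : ℝ) ≤ 2 ^ 30 := by exact_mod_cast h3.le
  have e : (t : ℝ) / 2 ^ 30 - ((t / 2 ^ 30 : ℤ) : ℝ) = ((t % 2 ^ 30 : ℤ) : ℝ) / 2 ^ 30 := by
    rw [← h1']; field_simp; ring
  rw [e]
  exact ⟨by positivity, by rw [div_le_one (by positivity)]; exact h3'⟩

theorem floor_abs {t : ℤ} {K : ℤ} (h : |t| ≤ 2 ^ 30 * K) : |t / 2 ^ 30| ≤ K + 1 := by
  rw [abs_le] at h ⊢
  have h1 := Int.emod_add_mul_ediv t (2 ^ 30)
  have h2 := Int.emod_nonneg t (show (2 : ℤ) ^ 30 ≠ 0 by norm_num)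
  have h3 := Int.emod_lt_of_pos t (show (0 : ℤ) < 2 ^ 30 by norm_num)
  constructor
  · by_contra hc
    push Not at hc
    nlinarith [h.1]
  · by_contra hc
    push Not at hc
    nlinarith [h.2]

theorem lin_abs (h1 : |d1| ≤ 1) (h2 : |d2| ≤ 1) (h3 : |d3| ≤ 1) (a b c : ℝ) :
    |a * d1 + b * d2 + c * d3| ≤ |a| + |b| + |c| := by
  have e1 : |a * d1| ≤ |a| := by
    rw [abs_mul]; exact mul_le_of_le_one_right (abs_nonneg _) h1
  have e2 : |b * d2| ≤ |b| := by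
    rw [abs_mul]; exact mul_le_of_le_one_right (abs_nonneg _) h2
  have e3 : |c * d3| ≤ |c| := by
    rw [abs_mul]; exact mul_le_of_le_one_right (abs_nonneg _) h3
  calc |a * d1 + b * d2 + c * d3| ≤ |a * d1 + b * d2| + |c * d3| := abs_add_le _ _
    _ ≤ |a * d1| + |b * d2| + |c * d3| := by linarith [abs_add_le (a * d1) (b * d2)]
    _ ≤ _ := by linarith

theorem prod_abs {a b c d H K : ℤ} (h1 : |a| + |c| ≤ H) (h2 : |b| ≤ K) (h3 : |d| ≤ K)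
    (hHK : H * K ≤ 2 ^ 76) : |a * b + c * d| ≤ 2 ^ 30 * 2 ^ 46 := by
  have hK : 0 ≤ K := (abs_nonneg _).trans h2
  have e1 : |a * b| ≤ |a| * K := by
    rw [abs_mul]; exact mul_le_mul_of_nonneg_left h2 (abs_nonneg _)
  have e2 : |c * d| ≤ |c| * K := by
    rw [abs_mul]; exact mul_le_mul_of_nonneg_left h3 (abs_nonneg _)
  have e3 := abs_add_le (a * b) (c * d)
  have e4 : (|a| + |c|) * K ≤ H * K := mul_le_mul_of_nonneg_right h1 hK
  calc |a * b + c * d| ≤ 2 ^ 76 := by linarith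
    _ = 2 ^ 30 * 2 ^ 46 := by norm_num

theorem cZ1_eq : cZ1 = 2 ^ 60 - 1 := by decide +kernel

theorem ble_aux (b b' H H' : ℕ)
    (h : Nat.ble (Nat.add (Nat.add b b') (Nat.shiftLeft (Nat.add H H') 22)) cZ1 = true) :
    b < 2 ^ 60 ∧ b' < 2 ^ 60 ∧ H < 2 ^ 38 ∧ H' < 2 ^ 38 := by
  have hle := Nat.le_of_ble_eq_true h
  rw [cZ1_eq] at hle
  have e1 : Nat.shiftLeft (Nat.add H H') 22 = (H + H') * 2 ^ 22 := Nat.shiftLeft_eq _ _
  rw [e1] at hle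
  have e2 : Nat.add (Nat.add b b') ((H + H') * 2 ^ 22) = b + b' + (H + H') * 2 ^ 22 := rfl
  rw [e2] at hle
  refine ⟨?_, ?_, ?_, ?_⟩ <;> omega

theorem mulAux_true {X Y e e' b b' G G' H H' : ℕ}
    (h : Nat.ble (Nat.add (Nat.add b b') (Nat.shiftLeft (Nat.add H H') 22)) cZ1 = true) :
    mulAux X Y e e' b b' G G' H H' = ⟨pr X Y, Nat.add (Nat.shiftRight (Nat.add (Nat.mul G G')
      (Nat.add (Nat.mul (Nat.add H e) e') (Nat.mul H' e))) 30) 6, c47⟩ := by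
  unfold mulAux; rw [h]

theorem mulAux_false {X Y e e' b b' G G' H H' : ℕ}
    (h : Nat.ble (Nat.add (Nat.add b b') (Nat.shiftLeft (Nat.add H H') 22)) cZ1 = false) :
    mulAux X Y e e' b b' G G' H H' = bad := by
  unfold mulAux; rw [h]

theorem mem_mul (h1 : |d1| ≤ 1) (h2 : |d2| ≤ 1) (h3 : |d3| ≤ 1) {x y : R} {f g : ℝ}
    (hx : Mem d1 d2 d3 x f) (hy : Mem d1 d2 d3 y g) : Mem d1 d2 d3 (R.mul x y) (f * g) := by
  unfold R.mul
  rcases hble : Nat.ble (Nat.add (Nat.add x.b y.b) (Nat.shiftLeft (Nat.add (hn x.X) (hn y.X)) 22))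
    cZ1 with _ | _
  · rw [mulAux_false hble]; exact mem_bad _
  rw [mulAux_true hble]
  intro _
  obtain ⟨hxb, hyb, hH, hK⟩ := ble_aux _ _ _ _ hble
  obtain ⟨x0, x3, x4, x5, rx, bx0, bx3, bx4, bx5, ex⟩ := hx hxb
  obtain ⟨y0, y3, y4, y5, ry, by0, by3, by4, by5, ey⟩ := hy hyb
  have hxz : ((x.b : ℕ) : ℤ) < 2 ^ 60 := by exact_mod_cast hxb
  have hyz : ((y.b : ℕ) : ℤ) < 2 ^ 60 := by exact_mod_cast hyb
  have gx := gn_spec rx (bx0.trans_lt hxz) (bx3.trans_lt hxz) (bx4.trans_lt hxz)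
    (bx5.trans_lt hxz)
  have gy := gn_spec ry (by0.trans_lt hyz) (by3.trans_lt hyz) (by4.trans_lt hyz)
    (by5.trans_lt hyz)
  have ax := an_spec rx (bx0.trans_lt hxz) (bx3.trans_lt hxz) (bx4.trans_lt hxz)
    (bx5.trans_lt hxz)
  have ay := an_spec ry (by0.trans_lt hyz) (by3.trans_lt hyz) (by4.trans_lt hyz)
    (by5.trans_lt hyz)
  have hnx : ((hn x.X : ℕ) : ℤ) = an x.X + gn x.X := by
    show ((an x.X + gn x.X : ℕ) : ℤ) = _; push_cast; rfl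
  have hny : ((hn y.X : ℕ) : ℤ) = an y.X + gn y.X := by
    show ((an y.X + gn y.X : ℕ) : ℤ) = _; push_cast; rfl
  have HX : |x0| + |x3| + |x4| + |x5| ≤ (hn x.X : ℤ) := by rw [hnx]; linarith
  have HY : |y0| + |y3| + |y4| + |y5| ≤ (hn y.X : ℤ) := by rw [hny]; linarith
  have hHz : ((hn x.X : ℕ) : ℤ) < 2 ^ 38 := by exact_mod_cast hH
  have hKz : ((hn y.X : ℕ) : ℤ) < 2 ^ 38 := by exact_mod_cast hK
  have hrep := pr_spec rx ry HX HY hHz hKz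
  have hHK : ((hn x.X : ℕ) : ℤ) * (hn y.X : ℕ) ≤ 2 ^ 76 := by
    calc ((hn x.X : ℕ) : ℤ) * (hn y.X : ℕ) ≤ 2 ^ 38 * 2 ^ 38 :=
          mul_le_mul hHz.le hKz.le (Int.natCast_nonneg _) (by norm_num)
      _ = 2 ^ 76 := by norm_num
  have p0 := abs_nonneg x0
  have p3 := abs_nonneg x3
  have p4 := abs_nonneg x4
  have p5 := abs_nonneg x5
  have q0 := abs_nonneg y0
  have q3 := abs_nonneg y3
  have q4 := abs_nonneg y4
  have q5 := abs_nonneg y5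
  have hc47 : (c47 : ℤ) = 2 ^ 47 := by
    have : c47 = 2 ^ 47 := by decide +kernel
    rw [this]; norm_num
  have t0 : |x0 * y0| ≤ 2 ^ 30 * 2 ^ 46 := by
    have := prod_abs (a := x0) (b := y0) (c := 0) (d := 0) (H := hn x.X) (K := hn y.X)
      (by simp only [abs_zero, add_zero]; linarith) (by linarith) (by simp) hHK
    simpa using this
  have t3 : |x0 * y3 + x3 * y0| ≤ 2 ^ 30 * 2 ^ 46 :=
    prod_abs (by linarith) (by linarith) (by linarith) hHK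
  have t4 : |x0 * y4 + x4 * y0| ≤ 2 ^ 30 * 2 ^ 46 :=
    prod_abs (by linarith) (by linarith) (by linarith) hHK
  have t5 : |x0 * y5 + x5 * y0| ≤ 2 ^ 30 * 2 ^ 46 :=
    prod_abs (by linarith) (by linarith) (by linarith) hHK
  refine ⟨_, _, _, _, hrep, ?_, ?_, ?_, ?_, ?_⟩
  · exact (floor_abs t0).trans (le_of_le_of_eq (show (2 : ℤ) ^ 46 + 1 ≤ 2 ^ 47 by norm_num) hc47.symm)
  · exact (floor_abs t3).trans (le_of_le_of_eq (show (2 : ℤ) ^ 46 + 1 ≤ 2 ^ 47 by norm_num) hc47.symm)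
  · exact (floor_abs t4).trans (le_of_le_of_eq (show (2 : ℤ) ^ 46 + 1 ≤ 2 ^ 47 by norm_num) hc47.symm)
  · exact (floor_abs t5).trans (le_of_le_of_eq (show (2 : ℤ) ^ 46 + 1 ≤ 2 ^ 47 by norm_num) hc47.symm)
  · set G : ℝ := ((gn x.X : ℕ) : ℝ) with hG
    set G' : ℝ := ((gn y.X : ℕ) : ℝ) with hG'
    set H : ℝ := ((hn x.X : ℕ) : ℝ) with hHr
    set H' : ℝ := ((hn y.X : ℕ) : ℝ) with hHr'
    set e : ℝ := ((x.e : ℕ) : ℝ) with he
    set e' : ℝ := ((y.e : ℕ) : ℝ) with he'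
    set s : ℝ := x3 * d1 + x4 * d2 + x5 * d3 with hs
    set s' : ℝ := y3 * d1 + y4 * d2 + y5 * d3 with hs'
    have gx' : |(x3 : ℝ)| + |(x4 : ℝ)| + |(x5 : ℝ)| ≤ G := by rw [hG]; exact_mod_cast gx
    have gy' : |(y3 : ℝ)| + |(y4 : ℝ)| + |(y5 : ℝ)| ≤ G' := by rw [hG']; exact_mod_cast gy
    have HX' : |(x0 : ℝ)| + |(x3 : ℝ)| + |(x4 : ℝ)| + |(x5 : ℝ)| ≤ H := by
      rw [hHr]; exact_mod_cast HX
    have HY' : |(y0 : ℝ)| + |(y3 : ℝ)| + |(y4 : ℝ)| + |(y5 : ℝ)| ≤ H' := by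
      rw [hHr']; exact_mod_cast HY
    have bs : |s| ≤ G := (lin_abs h1 h2 h3 _ _ _).trans gx'
    have bs' : |s'| ≤ G' := (lin_abs h1 h2 h3 _ _ _).trans gy'
    have bp : |(x0 : ℝ) + s| ≤ H := by
      have := abs_add_le (x0 : ℝ) s
      have := lin_abs h1 h2 h3 (x3 : ℝ) x4 x5
      rw [← hs] at this
      linarith
    have bq : |(y0 : ℝ) + s'| ≤ H' := by
      have := abs_add_le (y0 : ℝ) s'
      have := lin_abs h1 h2 h3 (y3 : ℝ) y4 y5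
      rw [← hs'] at this
      linarith
    have e0 : 0 ≤ e := by rw [he]; exact Nat.cast_nonneg _
    have e0' : 0 ≤ e' := by rw [he']; exact Nat.cast_nonneg _
    have H0 : 0 ≤ H := by rw [hHr]; exact Nat.cast_nonneg _
    have H0' : 0 ≤ H' := by rw [hHr']; exact Nat.cast_nonneg _
    have G0 : 0 ≤ G := by rw [hG]; exact Nat.cast_nonneg _
    set ε1 : ℝ := f * 2 ^ 30 - ((x0 : ℝ) + x3 * d1 + x4 * d2 + x5 * d3) with hε1
    set ε2 : ℝ := g * 2 ^ 30 - ((y0 : ℝ) + y3 * d1 + y4 * d2 + y5 * d3) with hε2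
    have hf : f * 2 ^ 30 = (x0 + s) + ε1 := by rw [hε1, hs]; ring
    have hg : g * 2 ^ 30 = (y0 + s') + ε2 := by rw [hε2, hs']; ring
    obtain ⟨u0, v0⟩ := floor_err (x0 * y0)
    obtain ⟨u3, v3⟩ := floor_err (x0 * y3 + x3 * y0)
    obtain ⟨u4, v4⟩ := floor_err (x0 * y4 + x4 * y0)
    obtain ⟨u5, v5⟩ := floor_err (x0 * y5 + x5 * y0)
    set φ0 : ℝ := ((x0 * y0 : ℤ) : ℝ) / 2 ^ 30 - ((x0 * y0 / 2 ^ 30 : ℤ) : ℝ) with hφ0
    set φ3 : ℝ := ((x0 * y3 + x3 * y0 : ℤ) : ℝ) / 2 ^ 30 -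
      (((x0 * y3 + x3 * y0) / 2 ^ 30 : ℤ) : ℝ) with hφ3
    set φ4 : ℝ := ((x0 * y4 + x4 * y0 : ℤ) : ℝ) / 2 ^ 30 -
      (((x0 * y4 + x4 * y0) / 2 ^ 30 : ℤ) : ℝ) with hφ4
    set φ5 : ℝ := ((x0 * y5 + x5 * y0 : ℤ) : ℝ) / 2 ^ 30 -
      (((x0 * y5 + x5 * y0) / 2 ^ 30 : ℤ) : ℝ) with hφ5
    set N : ℕ := gn x.X * gn y.X + ((hn x.X + x.e) * y.e + hn y.X * x.e) with hN
    have hNr : (N : ℝ) = G * G' + ((H + e) * e' + H' * e) := by
      rw [hN]; push_cast; rw [hG, hG', hHr, hHr', he, he']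
    have key : f * g * 2 ^ 30 - (((x0 * y0 / 2 ^ 30 : ℤ) : ℝ) +
        (((x0 * y3 + x3 * y0) / 2 ^ 30 : ℤ) : ℝ) * d1 +
        (((x0 * y4 + x4 * y0) / 2 ^ 30 : ℤ) : ℝ) * d2 +
        (((x0 * y5 + x5 * y0) / 2 ^ 30 : ℤ) : ℝ) * d3) =
        (s * s' + (x0 + s) * ε2 + (y0 + s') * ε1 + ε1 * ε2) / 2 ^ 30 + φ0 +
          (φ3 * d1 + φ4 * d2 + φ5 * d3) := by
      have : f * g * 2 ^ 30 = (f * 2 ^ 30) * (g * 2 ^ 30) / 2 ^ 30 := by
        field_simp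
      rw [this, hf, hg, hφ0, hφ3, hφ4, hφ5]
      push_cast
      rw [hs, hs']
      ring
    rw [key]
    have b1 : |s * s'| ≤ G * G' := by
      rw [abs_mul]; exact mul_le_mul bs bs' (abs_nonneg _) G0
    have b2 : |(x0 + s) * ε2| ≤ H * e' := by
      rw [abs_mul]; exact mul_le_mul bp ey (abs_nonneg _) H0
    have b3 : |(y0 + s') * ε1| ≤ H' * e := by
      rw [abs_mul]; exact mul_le_mul bq ex (abs_nonneg _) H0'
    have b4 : |ε1 * ε2| ≤ e * e' := by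
      rw [abs_mul]; exact mul_le_mul ex ey (abs_nonneg _) e0
    have b5 : |s * s' + (x0 + s) * ε2 + (y0 + s') * ε1 + ε1 * ε2| ≤ N := by
      rw [hNr]
      have a1 := abs_add_le (s * s' + (x0 + s) * ε2 + (y0 + s') * ε1) (ε1 * ε2)
      have a2 := abs_add_le (s * s' + (x0 + s) * ε2) ((y0 + s') * ε1)
      have a3 := abs_add_le (s * s') ((x0 + s) * ε2)
      have a4 : G * G' + ((H + e) * e' + H' * e) = G * G' + H * e' + H' * e + e * e' := by ring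
      rw [a4]
      linarith
    have b6 : |(s * s' + (x0 + s) * ε2 + (y0 + s') * ε1 + ε1 * ε2) / 2 ^ 30| ≤
        (N : ℝ) / 2 ^ 30 := by
      rw [abs_div, abs_of_pos (show (0 : ℝ) < 2 ^ 30 by positivity)]
      exact div_le_div_of_nonneg_right b5 (by positivity)
    have b7 : (N : ℝ) / 2 ^ 30 ≤ ((N >>> 30 : ℕ) : ℝ) + 1 := by
      rw [Nat.shiftRight_eq_div_pow]
      have := (floor_err (N : ℤ)).2
      have h' : (((N : ℤ) / 2 ^ 30 : ℤ) : ℝ) = ((N / 2 ^ 30 : ℕ) : ℝ) := by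
        have : ((N : ℤ) / 2 ^ 30 : ℤ) = ((N / 2 ^ 30 : ℕ) : ℤ) := by push_cast; rfl
        rw [this]; exact Int.cast_natCast _
      rw [h', Int.cast_natCast] at this
      linarith
    have b8 := lin_abs h1 h2 h3 φ3 φ4 φ5
    rw [abs_of_nonneg u3, abs_of_nonneg u4, abs_of_nonneg u5] at b8
    have b9 := abs_add_le ((s * s' + (x0 + s) * ε2 + (y0 + s') * ε1 + ε1 * ε2) / 2 ^ 30 + φ0)
      (φ3 * d1 + φ4 * d2 + φ5 * d3)
    have b10 := abs_add_le ((s * s' + (x0 + s) * ε2 + (y0 + s') * ε1 + ε1 * ε2) / 2 ^ 30) φ0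
    rw [abs_of_nonneg u0] at b10
    show _ ≤ (((N >>> 30) + 6 : ℕ) : ℝ)
    push_cast
    push_cast at b7
    linarith

end Pool.TM
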