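import Pool.Agent.Work.MP_b5407d_tm.TM

/-!
# Constants, scaling, inverse of Taylor models
-/

set_option autoImplicit false
set_option exponentiation.threshold 3000

namespace Pool.TM

variable {d1 d2 d3 : ℝ}

theorem rep_const (n : ℕ) : Rep (Nat.add cZU n) n 0 0 0 := by
  show ((cZU + n : ℕ) : ℤ) = _
  rw [cZU_eq]; push_cast; ring

theorem mem_c (n : ℕ) : Mem d1 d2 d3 (R.c n) ((n : ℝ) / 2 ^ 30) := by
  intro _
  refine ⟨n, 0, 0, 0, rep_const n, ?_, ?_, ?_, ?_, ?_⟩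
  · show |((n : ℕ) : ℤ)| ≤ ((n : ℕ) : ℤ)
    rw [abs_of_nonneg (Int.natCast_nonneg _)]
  · show |(0 : ℤ)| ≤ ((n : ℕ) : ℤ)
    rw [abs_zero]; exact Int.natCast_nonneg _
  · show |(0 : ℤ)| ≤ ((n : ℕ) : ℤ)
    rw [abs_zero]; exact Int.natCast_nonneg _
  · show |(0 : ℤ)| ≤ ((n : ℕ) : ℤ)
    rw [abs_zero]; exact Int.natCast_nonneg _
  · show |_| ≤ ((0 : ℕ) : ℝ)
    have : (n : ℝ) / 2 ^ 30 * 2 ^ 30 - ((((n : ℕ) : ℤ) : ℝ) + ((0 : ℤ) : ℝ) * d1 +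
        ((0 : ℤ) : ℝ) * d2 + ((0 : ℤ) : ℝ) * d3) = 0 := by
      rw [Int.cast_natCast]; push_cast; field_simp; ring
    rw [this, abs_zero]; exact Nat.cast_nonneg _

theorem mem_q (n d : ℕ) (hd : 0 < d) : Mem d1 d2 d3 (R.q n d) ((n : ℝ) / d) := by
  intro _
  set k : ℕ := Nat.div (Nat.shiftLeft n 30) d with hk
  have hk' : k = n * 2 ^ 30 / d := by rw [hk]; show (n <<< 30) / d = _; rw [Nat.shiftLeft_eq]
  refine ⟨k, 0, 0, 0, rep_const k, ?_, ?_, ?_, ?_, ?_⟩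
  · show |((k : ℕ) : ℤ)| ≤ ((k : ℕ) : ℤ)
    rw [abs_of_nonneg (Int.natCast_nonneg _)]
  · show |(0 : ℤ)| ≤ ((k : ℕ) : ℤ)
    rw [abs_zero]; exact Int.natCast_nonneg _
  · show |(0 : ℤ)| ≤ ((k : ℕ) : ℤ)
    rw [abs_zero]; exact Int.natCast_nonneg _
  · show |(0 : ℤ)| ≤ ((k : ℕ) : ℤ)
    rw [abs_zero]; exact Int.natCast_nonneg _
  · show |_| ≤ ((1 : ℕ) : ℝ)
    have hd' : (0 : ℝ) < d := by exact_mod_cast hd
    have e1 := Nat.div_add_mod (n * 2 ^ 30) d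
    have e2 := Nat.mod_lt (n * 2 ^ 30) hd
    have e1' : (d : ℝ) * (k : ℕ) + ((n * 2 ^ 30 % d : ℕ) : ℝ) = n * 2 ^ 30 := by
      rw [hk']; exact_mod_cast e1
    have e2' : ((n * 2 ^ 30 % d : ℕ) : ℝ) ≤ d := by exact_mod_cast e2.le
    have e3' : (0 : ℝ) ≤ ((n * 2 ^ 30 % d : ℕ) : ℝ) := Nat.cast_nonneg _
    have : (n : ℝ) / d * 2 ^ 30 - ((((k : ℕ) : ℤ) : ℝ) + ((0 : ℤ) : ℝ) * d1 +
        ((0 : ℤ) : ℝ) * d2 + ((0 : ℤ) : ℝ) * d3) = ((n * 2 ^ 30 % d : ℕ) : ℝ) / d := by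
      rw [Int.cast_natCast, eq_div_iff hd'.ne']
      push_cast at e1' ⊢
      field_simp
      linarith
    rw [this, abs_of_nonneg (by positivity), Nat.cast_one, div_le_one hd']
    exact e2'

theorem sc_spec {n X : ℕ} {b : ℕ} {x0 x3 x4 x5 : ℤ} (hX : Rep X x0 x3 x4 x5)
    (h0 : |x0| ≤ b) (h3 : |x3| ≤ b) (h4 : |x4| ≤ b) (h5 : |x5| ≤ b)
    (hb : b * n ≤ 2 ^ 89) :
    Rep (sc n X) (x0 * n / 2 ^ 30) (x3 * n / 2 ^ 30) (x4 * n / 2 ^ 30) (x5 * n / 2 ^ 30) := by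
  have hbz : ((b : ℕ) : ℤ) * n ≤ 2 ^ 89 := by exact_mod_cast hb
  have key (x : ℤ) (h : |x| ≤ b) : |x * n| ≤ 2 ^ 89 := by
    rw [abs_mul, abs_of_nonneg (Int.natCast_nonneg n)]
    exact (mul_le_mul_of_nonneg_right h (Int.natCast_nonneg _)).trans hbz
  have t0 := key x0 h0
  have t3 := key x3 h3
  have t4 := key x4 h4
  have t5 := key x5 h5
  rw [abs_le] at t0 t3 t4 t5
  obtain ⟨r0, hr0⟩ := Int.eq_ofNat_of_zero_le (show 0 ≤ x0 * n + 2 ^ 90 by linarith [t0.1])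
  obtain ⟨r3, hr3⟩ := Int.eq_ofNat_of_zero_le (show 0 ≤ x3 * n + 2 ^ 90 by linarith [t3.1])
  obtain ⟨r4, hr4⟩ := Int.eq_ofNat_of_zero_le (show 0 ≤ x4 * n + 2 ^ 90 by linarith [t4.1])
  obtain ⟨r5, hr5⟩ := Int.eq_ofNat_of_zero_le (show 0 ≤ x5 * n + 2 ^ 90 by linarith [t5.1])
  have hR : Nat.sub (Nat.add (Nat.mul X n) cZU30) (Nat.mul n cZU) =
      r0 + 2 ^ 288 * (r3 + 2 ^ 96 * (r4 + 2 ^ 96 * r5)) := by
    show X * n + cZU30 - n * cZU = _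
    have : ((X * n + cZU30 : ℕ) : ℤ) = ((n * cZU + (r0 + 2 ^ 288 * (r3 + 2 ^ 96 *
        (r4 + 2 ^ 96 * r5))) : ℕ) : ℤ) := by
      rw [cZU30_eq]
      push_cast
      unfold Rep at hX
      rw [← hr0, ← hr3, ← hr4, ← hr5, hX, cZU_eq]
      push_cast
      ring
    have := Int.ofNat_inj.mp this
    omega
  have b0 : r0 < 2 ^ 96 := by zify; rw [← hr0]; linarith [t0.2]
  have b3 : r3 < 2 ^ 96 := by zify; rw [← hr3]; linarith [t3.2]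
  have b4 : r4 < 2 ^ 96 := by zify; rw [← hr4]; linarith [t4.2]
  have b5 : r5 < 2 ^ 96 := by zify; rw [← hr5]; linarith [t5.2]
  have hpr : sc n X = r0 / 2 ^ 30 + 2 ^ 288 * (r3 / 2 ^ 30 + 2 ^ 96 * (r4 / 2 ^ 30 +
      2 ^ 96 * (r5 / 2 ^ 30))) := by
    unfold sc
    rw [hR]
    show (_ >>> 30) &&& cM = _
    rw [Nat.shiftRight_eq_div_pow, cM_eq, ext_step 288 _ _ _ (by norm_num) b0,
      ext_step 96 _ _ _ (by norm_num) b3, ext_step 96 _ _ _ (by norm_num) b4]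
    have := ext_step 96 r5 0 0 (by norm_num) b5
    rw [mul_zero, add_zero, Nat.and_zero, mul_zero, add_zero, add_zero] at this
    rw [this]
  have hd (t : ℤ) : (t + 2 ^ 90) / 2 ^ 30 = t / 2 ^ 30 + 2 ^ 60 := by
    rw [show (t : ℤ) + 2 ^ 90 = t + 2 ^ 60 * 2 ^ 30 by norm_num,
      Int.add_mul_ediv_right _ _ (by norm_num)]
  unfold Rep
  rw [hpr, ← hd, ← hd, ← hd, ← hd, hr0, hr3, hr4, hr5]
  push_cast
  rfl

theorem shr_real (N : ℕ) : (N : ℝ) / 2 ^ 30 ≤ ((N >>> 30 : ℕ) : ℝ) + 1 := by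
  rw [Nat.shiftRight_eq_div_pow]
  have := (floor_err (N : ℤ)).2
  have h' : (((N : ℤ) / 2 ^ 30 : ℤ) : ℝ) = ((N / 2 ^ 30 : ℕ) : ℝ) := by
    have : ((N : ℤ) / 2 ^ 30 : ℤ) = ((N / 2 ^ 30 : ℕ) : ℤ) := by push_cast; rfl
    rw [this]; exact Int.cast_natCast _
  rw [h', Int.cast_natCast] at this
  linarith

theorem scl_true {n : ℕ} {x : R}
    (h : Nat.ble (Nat.add (Nat.mul x.b n) (Nat.shiftLeft x.b 30)) cP89 = true) :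
    R.scl n x = ⟨sc n x.X, Nat.add (Nat.shiftRight (Nat.mul x.e n) 30) 6,
      Nat.add (Nat.shiftRight (Nat.mul x.b n) 30) 1⟩ := by
  unfold R.scl; rw [h]

theorem scl_false {n : ℕ} {x : R}
    (h : Nat.ble (Nat.add (Nat.mul x.b n) (Nat.shiftLeft x.b 30)) cP89 = false) :
    R.scl n x = bad := by
  unfold R.scl; rw [h]

theorem mem_scl (h1 : |d1| ≤ 1) (h2 : |d2| ≤ 1) (h3 : |d3| ≤ 1) {n : ℕ} {x : R} {f : ℝ}
    (hx : Mem d1 d2 d3 x f) : Mem d1 d2 d3 (R.scl n x) ((n : ℝ) / 2 ^ 30 * f) := by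
  rcases hble : Nat.ble (Nat.add (Nat.mul x.b n) (Nat.shiftLeft x.b 30)) cP89 with _ | _
  · rw [scl_false hble]; exact mem_bad _
  rw [scl_true hble]
  intro _
  have hle := Nat.le_of_ble_eq_true hble
  rw [cP89_eq] at hle
  have e1 : Nat.shiftLeft x.b 30 = x.b * 2 ^ 30 := Nat.shiftLeft_eq _ _
  rw [e1] at hle
  have e2 : Nat.add (Nat.mul x.b n) (x.b * 2 ^ 30) = x.b * n + x.b * 2 ^ 30 := rfl
  rw [e2] at hle
  have hbn : x.b * n ≤ 2 ^ 89 := le_trans (Nat.le_add_right _ _) hle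
  have hxb' : x.b ≤ 2 ^ 59 := by
    have : x.b * 2 ^ 30 ≤ 2 ^ 59 * 2 ^ 30 := by
      rw [← pow_add]; exact le_trans (Nat.le_add_left _ _) hle
    exact Nat.le_of_mul_le_mul_right this (by positivity)
  have hxb : x.b < 2 ^ 60 := lt_of_le_of_lt hxb' (by norm_num)
  obtain ⟨x0, x3, x4, x5, rx, bx0, bx3, bx4, bx5, ex⟩ := hx hxb
  have hrep := sc_spec rx bx0 bx3 bx4 bx5 hbn
  have bd (t : ℤ) (h : |t| ≤ (x.b : ℤ)) :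
      |t * n / 2 ^ 30| ≤ ((Nat.add (Nat.shiftRight (Nat.mul x.b n) 30) 1 : ℕ) : ℤ) := by
    show _ ≤ (((x.b * n) >>> 30 + 1 : ℕ) : ℤ)
    rw [Nat.shiftRight_eq_div_pow]
    have hb : |t * n| ≤ (x.b : ℤ) * n := by
      rw [abs_mul, abs_of_nonneg (Int.natCast_nonneg n)]
      exact mul_le_mul_of_nonneg_right h (Int.natCast_nonneg _)
    rw [abs_le] at hb ⊢
    have a1 := Int.ediv_le_ediv (show (0 : ℤ) < 2 ^ 30 by norm_num) hb.2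
    have a2 := Int.ediv_le_ediv (show (0 : ℤ) < 2 ^ 30 by norm_num) hb.1
    have a3 : -(((x.b : ℤ) * n) / 2 ^ 30) - 1 ≤ -((x.b : ℤ) * n) / 2 ^ 30 := by
      have h1 := Int.emod_add_mul_ediv ((x.b : ℤ) * n) (2 ^ 30)
      have h3 := Int.emod_lt_of_pos ((x.b : ℤ) * n) (show (0 : ℤ) < 2 ^ 30 by norm_num)
      rw [Int.le_ediv_iff_mul_le (by norm_num)]
      linarith
    have a4 : (((x.b * n / 2 ^ 30 + 1 : ℕ)) : ℤ) = ((x.b : ℤ) * n) / 2 ^ 30 + 1 := by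
      push_cast; rfl
    rw [a4]
    constructor
    · linarith
    · linarith
  refine ⟨_, _, _, _, hrep, bd _ bx0, bd _ bx3, bd _ bx4, bd _ bx5, ?_⟩
  obtain ⟨u0, v0⟩ := floor_err (x0 * n)
  obtain ⟨u3, v3⟩ := floor_err (x3 * n)
  obtain ⟨u4, v4⟩ := floor_err (x4 * n)
  obtain ⟨u5, v5⟩ := floor_err (x5 * n)
  set φ0 : ℝ := ((x0 * n : ℤ) : ℝ) / 2 ^ 30 - ((x0 * n / 2 ^ 30 : ℤ) : ℝ) with hφ0
  set φ3 : ℝ := ((x3 * n : ℤ) : ℝ) / 2 ^ 30 - ((x3 * n / 2 ^ 30 : ℤ) : ℝ) with hφ3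
  set φ4 : ℝ := ((x4 * n : ℤ) : ℝ) / 2 ^ 30 - ((x4 * n / 2 ^ 30 : ℤ) : ℝ) with hφ4
  set φ5 : ℝ := ((x5 * n : ℤ) : ℝ) / 2 ^ 30 - ((x5 * n / 2 ^ 30 : ℤ) : ℝ) with hφ5
  set ε : ℝ := f * 2 ^ 30 - ((x0 : ℝ) + x3 * d1 + x4 * d2 + x5 * d3) with hε
  have key : (n : ℝ) / 2 ^ 30 * f * 2 ^ 30 - (((x0 * n / 2 ^ 30 : ℤ) : ℝ) +
      ((x3 * n / 2 ^ 30 : ℤ) : ℝ) * d1 + ((x4 * n / 2 ^ 30 : ℤ) : ℝ) * d2 +
      ((x5 * n / 2 ^ 30 : ℤ) : ℝ) * d3) =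
      ε * n / 2 ^ 30 + φ0 + (φ3 * d1 + φ4 * d2 + φ5 * d3) := by
    rw [hφ0, hφ3, hφ4, hφ5, hε]
    push_cast
    ring
  rw [key]
  have hn0 : (0 : ℝ) ≤ (n : ℝ) := Nat.cast_nonneg n
  have c1 : |ε * n / 2 ^ 30| ≤ (((x.e * n : ℕ)) : ℝ) / 2 ^ 30 := by
    rw [abs_div, abs_of_pos (show (0 : ℝ) < 2 ^ 30 by positivity), abs_mul,
      abs_of_nonneg hn0, Nat.cast_mul]
    exact div_le_div_of_nonneg_right (mul_le_mul_of_nonneg_right ex hn0)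
      (by positivity)
  have c2 := shr_real (x.e * n)
  have b8 := lin_abs h1 h2 h3 φ3 φ4 φ5
  rw [abs_of_nonneg u3, abs_of_nonneg u4, abs_of_nonneg u5] at b8
  have b9 := abs_add_le (ε * n / 2 ^ 30 + φ0) (φ3 * d1 + φ4 * d2 + φ5 * d3)
  have b10 := abs_add_le (ε * n / 2 ^ 30) φ0
  rw [abs_of_nonneg u0] at b10
  show _ ≤ (((x.e * n) >>> 30 + 6 : ℕ) : ℝ)
  rw [Nat.cast_add]
  norm_num at c1 c2 v0 v3 v4 v5 b8 b9 b10 ⊢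
  linarith

end Pool.TM
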