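import Pool.Agent.Work.MP_b5407d_tm.TM2

/-!
# Inverse, positivity, box variables
-/

set_option autoImplicit false
set_option exponentiation.threshold 3000

namespace Pool.TM

variable {d1 d2 d3 : ℝ}

/-- `2^30` -/
def c30 : ℕ := 1073741824

/-- `2^29` -/
def c29 : ℕ := 536870912

def invF (Y b E : ℕ) : R :=
  match Nat.ble E c29 with
  | true => ⟨Y, Nat.add (Nat.shiftRight (Nat.mul (hn Y) E) 29) 1, b⟩
  | false => bad

def invE (Y b : ℕ) (P : R) : R :=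
  match Nat.ble P.b c47 with
  | true => invF Y b (Nat.add (hn (Nat.sub P.X c30)) P.e)
  | false => bad

def invD (x : R) (Y b : ℕ) : R := invE Y b (R.mul x ⟨Y, 0, b⟩)

def invC (x : R) (r S b : ℕ) : R :=
  invD x (Nat.sub (Nat.add cZU2 (Nat.add r (Nat.mod S cB))) (Nat.add S cZ)) b

def invB (x : R) (r q : ℕ) : R :=
  match Nat.ble (Nat.add (Nat.mul x.b q) (Nat.shiftLeft x.b 30)) cP89 with
  | true => invC x r (sc q x.X) (Nat.add r (Nat.add (Nat.shiftRight (Nat.mul x.b q) 30) 1))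
  | false => bad

def invA (x : R) (r : ℕ) : R := invB x r (Nat.shiftRight (Nat.mul r r) 30)

/-- inverse of a positive Taylor model -/
def R.inv (x : R) : R := invA x (Nat.div cZ (Nat.sub (Nat.mod x.X cB) cZ))

theorem invF_true {Y b E : ℕ} (h : Nat.ble E c29 = true) :
    invF Y b E = ⟨Y, Nat.add (Nat.shiftRight (Nat.mul (hn Y) E) 29) 1, b⟩ := by
  unfold invF; rw [h]

theorem invF_false {Y b E : ℕ} (h : Nat.ble E c29 = false) : invF Y b E = bad := by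
  unfold invF; rw [h]

theorem invE_true {Y b : ℕ} {P : R} (h : Nat.ble P.b c47 = true) :
    invE Y b P = invF Y b (Nat.add (hn (Nat.sub P.X c30)) P.e) := by
  unfold invE; rw [h]

theorem invE_false {Y b : ℕ} {P : R} (h : Nat.ble P.b c47 = false) : invE Y b P = bad := by
  unfold invE; rw [h]

theorem invB_true {x : R} {r q : ℕ}
    (h : Nat.ble (Nat.add (Nat.mul x.b q) (Nat.shiftLeft x.b 30)) cP89 = true) :
    invB x r q = invC x r (sc q x.X)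
      (Nat.add r (Nat.add (Nat.shiftRight (Nat.mul x.b q) 30) 1)) := by
  unfold invB; rw [h]

theorem invB_false {x : R} {r q : ℕ}
    (h : Nat.ble (Nat.add (Nat.mul x.b q) (Nat.shiftLeft x.b 30)) cP89 = false) :
    invB x r q = bad := by
  unfold invB; rw [h]

theorem hn_spec {X : ℕ} {x0 x3 x4 x5 : ℤ} (h : Rep X x0 x3 x4 x5) (h0 : |x0| < 2 ^ 60)
    (h3 : |x3| < 2 ^ 60) (h4 : |x4| < 2 ^ 60) (h5 : |x5| < 2 ^ 60) :
    |x0| + |x3| + |x4| + |x5| ≤ (hn X : ℤ) := by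
  have a := an_spec h h0 h3 h4 h5
  have g := gn_spec h h0 h3 h4 h5
  show _ ≤ ((an X + gn X : ℕ) : ℤ)
  push_cast
  linarith

theorem shr29_real (N : ℕ) : (N : ℝ) / 2 ^ 29 ≤ ((N >>> 29 : ℕ) : ℝ) + 1 := by
  rw [Nat.shiftRight_eq_div_pow]
  have h1 : N < (N / 2 ^ 29 + 1) * 2 ^ 29 := by
    have := Nat.lt_mul_div_succ N (show 0 < 2 ^ 29 by norm_num)
    rw [mul_comm] at this; exact this
  rw [div_le_iff₀ (by positivity)]
  have : (N : ℝ) ≤ ((N / 2 ^ 29 + 1 : ℕ) : ℝ) * ((2 ^ 29 : ℕ) : ℝ) := by exact_mod_cast h1.le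
  refine this.trans (le_of_eq ?_)
  norm_num

theorem poly_abs (h1 : |d1| ≤ 1) (h2 : |d2| ≤ 1) (h3 : |d3| ≤ 1) {X : ℕ} {x0 x3 x4 x5 : ℤ}
    (h : Rep X x0 x3 x4 x5) (h0 : |x0| < 2 ^ 60)
    (g3 : |x3| < 2 ^ 60) (g4 : |x4| < 2 ^ 60) (g5 : |x5| < 2 ^ 60) :
    |(x0 : ℝ) + x3 * d1 + x4 * d2 + x5 * d3| ≤ (hn X : ℝ) := by
  have a := hn_spec h h0 g3 g4 g5
  have a' : |(x0 : ℝ)| + |(x3 : ℝ)| + |(x4 : ℝ)| + |(x5 : ℝ)| ≤ (hn X : ℝ) := by
    exact_mod_cast a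
  have b := lin_abs h1 h2 h3 (x3 : ℝ) x4 x5
  have c := abs_add_le (x0 : ℝ) (x3 * d1 + x4 * d2 + x5 * d3)
  have e : (x0 : ℝ) + x3 * d1 + x4 * d2 + x5 * d3 = x0 + (x3 * d1 + x4 * d2 + x5 * d3) := by ring
  rw [e]; linarith

theorem val_nonneg' {r : ℕ} {x3 x4 x5 : ℤ} (h3 : |x3| ≤ 2 ^ 60)
    (h4 : |x4| ≤ 2 ^ 60) (h5 : |x5| ≤ 2 ^ 60) : 0 ≤ val r (-x3) (-x4) (-x5) := by
  rw [abs_le] at h3 h4 h5
  unfold val
  have a5 : 0 ≤ -x5 + 2 ^ 60 := by linarith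
  have a4 : 0 ≤ -x4 + 2 ^ 60 := by linarith
  have a3 : 0 ≤ -x3 + 2 ^ 60 := by linarith
  positivity

theorem cand_rep {S r m : ℕ} {z0 z3 z4 z5 : ℤ} (hS : Rep S z0 z3 z4 z5)
    (h3 : |z3| ≤ 2 ^ 60) (h4 : |z4| ≤ 2 ^ 60) (h5 : |z5| ≤ 2 ^ 60)
    (hm : (m : ℤ) = z0 + 2 ^ 60) :
    Rep (Nat.sub (Nat.add cZU2 (Nat.add r m)) (Nat.add S cZ)) r (-z3) (-z4) (-z5) := by
  show ((cZU2 + (r + m) - (S + cZ) : ℕ) : ℤ) = val r (-z3) (-z4) (-z5)
  have hSz : (S : ℤ) = val z0 z3 z4 z5 := hS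
  have e : ((cZU2 + (r + m) : ℕ) : ℤ) = val r (-z3) (-z4) (-z5) + ((S + cZ : ℕ) : ℤ) := by
    rw [Nat.cast_add, Nat.cast_add, hm, Nat.cast_add, hSz, cZU2_eq, cZ_eq, Nat.cast_add,
      cZU_val]
    unfold val
    push_cast
    ring
  have hn0 := val_nonneg' (r := r) h3 h4 h5
  generalize val r (-z3) (-z4) (-z5) = V at *
  generalize cZU2 + (r + m) = A at *
  generalize S + cZ = D at *
  have hle : D ≤ A := by zify; linarith
  rw [Nat.cast_sub hle, e]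
  ring

theorem mem_inv (h1 : |d1| ≤ 1) (h2 : |d2| ≤ 1) (h3 : |d3| ≤ 1) {x : R} {f : ℝ}
    (hx : Mem d1 d2 d3 x f) : Mem d1 d2 d3 (R.inv x) f⁻¹ := by
  unfold R.inv invA
  generalize Nat.div cZ (Nat.sub (Nat.mod x.X cB) cZ) = r
  generalize Nat.shiftRight (Nat.mul r r) 30 = q
  rcases hble : Nat.ble (Nat.add (Nat.mul x.b q) (Nat.shiftLeft x.b 30)) cP89 with _ | _
  · rw [invB_false hble]; exact mem_bad _
  rw [invB_true hble]
  have hle := Nat.le_of_ble_eq_true hble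
  rw [cP89_eq] at hle
  have e1 : Nat.shiftLeft x.b 30 = x.b * 2 ^ 30 := Nat.shiftLeft_eq _ _
  rw [e1] at hle
  have e2 : Nat.add (Nat.mul x.b q) (x.b * 2 ^ 30) = x.b * q + x.b * 2 ^ 30 := rfl
  rw [e2] at hle
  have hbn : x.b * q ≤ 2 ^ 89 := le_trans (Nat.le_add_right _ _) hle
  have hxb' : x.b ≤ 2 ^ 59 := by
    have : x.b * 2 ^ 30 ≤ 2 ^ 59 * 2 ^ 30 := by
      rw [← pow_add]; exact le_trans (Nat.le_add_left _ _) hle
    exact Nat.le_of_mul_le_mul_right this (by positivity)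
  have hxb : x.b < 2 ^ 60 := lt_of_le_of_lt hxb' (by norm_num)
  obtain ⟨x0, x3, x4, x5, rx, bx0, bx3, bx4, bx5, ex⟩ := hx hxb
  have hrep := sc_spec rx bx0 bx3 bx4 bx5 hbn
  have bd (t : ℤ) (h : |t| ≤ (x.b : ℤ)) :
      |t * q / 2 ^ 30| ≤ ((Nat.add (Nat.shiftRight (Nat.mul x.b q) 30) 1 : ℕ) : ℤ) := by
    show _ ≤ (((x.b * q) >>> 30 + 1 : ℕ) : ℤ)
    rw [Nat.shiftRight_eq_div_pow]
    have hb : |t * q| ≤ (x.b : ℤ) * q := by
      rw [abs_mul, abs_of_nonneg (Int.natCast_nonneg q)]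
      exact mul_le_mul_of_nonneg_right h (Int.natCast_nonneg _)
    rw [abs_le] at hb ⊢
    have a1 := Int.ediv_le_ediv (show (0 : ℤ) < 2 ^ 30 by norm_num) hb.2
    have a2 := Int.ediv_le_ediv (show (0 : ℤ) < 2 ^ 30 by norm_num) hb.1
    have a3 : -(((x.b : ℤ) * q) / 2 ^ 30) - 1 ≤ -((x.b : ℤ) * q) / 2 ^ 30 := by
      have h1 := Int.emod_add_mul_ediv ((x.b : ℤ) * q) (2 ^ 30)
      have h3 := Int.emod_lt_of_pos ((x.b : ℤ) * q) (show (0 : ℤ) < 2 ^ 30 by norm_num)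
      rw [Int.le_ediv_iff_mul_le (by norm_num)]
      linarith
    have a4 : (((x.b * q / 2 ^ 30 + 1 : ℕ)) : ℤ) = ((x.b : ℤ) * q) / 2 ^ 30 + 1 := by
      push_cast; rfl
    rw [a4]
    constructor
    · linarith
    · linarith
  have s0 := bd x0 bx0
  have s3 := bd x3 bx3
  have s4 := bd x4 bx4
  have s5 := bd x5 bx5
  have b60 : ((Nat.add (Nat.shiftRight (Nat.mul x.b q) 30) 1 : ℕ) : ℤ) < 2 ^ 60 := by
    have : (x.b * q) >>> 30 + 1 < 2 ^ 60 := by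
      rw [Nat.shiftRight_eq_div_pow]
      have : x.b * q / 2 ^ 30 ≤ 2 ^ 59 := by
        have h := Nat.div_le_div_right (c := 2 ^ 30) hbn
        rwa [show (2 : ℕ) ^ 89 / 2 ^ 30 = 2 ^ 59 by norm_num] at h
      norm_num at this ⊢; omega
    exact_mod_cast this
  set S := sc q x.X with hS
  generalize x0 * q / 2 ^ 30 = z0 at hrep s0
  generalize x3 * q / 2 ^ 30 = z3 at hrep s3
  generalize x4 * q / 2 ^ 30 = z4 at hrep s4
  generalize x5 * q / 2 ^ 30 = z5 at hrep s5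
  generalize Nat.add (Nat.shiftRight (Nat.mul x.b q) 30) 1 = bq at s0 s3 s4 s5 b60
  have hm := mod_cen hrep (s0.trans_lt b60) (s3.trans_lt b60) (s4.trans_lt b60)
    (s5.trans_lt b60)
  unfold invC
  -- the candidate
  have hY := cand_rep (r := r) hrep (s3.trans b60.le) (s4.trans b60.le) (s5.trans b60.le) hm
  generalize Nat.sub (Nat.add cZU2 (Nat.add r (Nat.mod S cB))) (Nat.add S cZ) = Y at hY
  show Mem d1 d2 d3 (invD x Y (r + bq)) f⁻¹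
  have c0 : |((r : ℕ) : ℤ)| ≤ ((r + bq : ℕ) : ℤ) := by
    rw [abs_of_nonneg (Int.natCast_nonneg _)]; push_cast
    linarith [Int.natCast_nonneg bq]
  have c' (t : ℤ) (h : |t| ≤ (bq : ℤ)) : |-t| ≤ ((r + bq : ℕ) : ℤ) := by
    rw [abs_neg]; push_cast; linarith [Int.natCast_nonneg r]
  have c3 := c' z3 s3
  have c4 := c' z4 s4
  have c5 := c' z5 s5
  generalize r + bq = b at c0 c3 c4 c5
  generalize ((r : ℕ) : ℤ) = y0 at hY c0
  generalize -z3 = y3 at hY c3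
  generalize -z4 = y4 at hY c4
  generalize -z5 = y5 at hY c5
  set p : ℝ := (y0 : ℝ) + y3 * d1 + y4 * d2 + y5 * d3 with hp
  have memY : Mem d1 d2 d3 ⟨Y, 0, b⟩ (p / 2 ^ 30) := by
    intro _
    refine ⟨y0, y3, y4, y5, hY, c0, c3, c4, c5, ?_⟩
    rw [div_mul_cancel₀ _ (by positivity), ← hp, sub_self, abs_zero]
    exact Nat.cast_nonneg _
  have memP := mem_mul h1 h2 h3 hx memY
  unfold invD
  generalize R.mul x ⟨Y, 0, b⟩ = P at memP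
  rcases hble2 : Nat.ble P.b c47 with _ | _
  · rw [invE_false hble2]; exact mem_bad _
  rw [invE_true hble2]
  have hPb := Nat.le_of_ble_eq_true hble2
  have hc47 : c47 = 2 ^ 47 := by decide +kernel
  rw [hc47] at hPb
  have hPb' : P.b < 2 ^ 60 := lt_of_le_of_lt hPb (by norm_num)
  obtain ⟨p0, p3, p4, p5, rp, bp0, bp3, bp4, bp5, ep⟩ := memP hPb'
  have hz : (P.b : ℤ) ≤ 2 ^ 47 := by exact_mod_cast hPb
  have hrep2 : Rep (Nat.sub P.X c30) (p0 - 2 ^ 30) p3 p4 p5 := by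
    show ((P.X - c30 : ℕ) : ℤ) = _
    have hc30 : (c30 : ℤ) = 2 ^ 30 := by
      have : c30 = 2 ^ 30 := by decide +kernel
      rw [this]; norm_num
    have hPX : (P.X : ℤ) = val p0 p3 p4 p5 := rp
    have a0 := abs_le.mp (bp0.trans hz)
    have a3 := abs_le.mp (bp3.trans hz)
    have a4 := abs_le.mp (bp4.trans hz)
    have a5 := abs_le.mp (bp5.trans hz)
    have hge : (2 : ℤ) ^ 30 ≤ P.X := by
      rw [hPX]
      unfold val
      have h5 : 0 ≤ p5 + 2 ^ 60 := by linarith [a5.1]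
      have h4 : 0 ≤ p4 + 2 ^ 60 := by linarith [a4.1]
      have h3 : 0 ≤ p3 + 2 ^ 60 := by linarith [a3.1]
      have h0 : 2 ^ 30 ≤ p0 + 2 ^ 60 := by linarith [a0.1]
      have : 0 ≤ 2 ^ 288 * ((p3 + 2 ^ 60) + 2 ^ 96 * ((p4 + 2 ^ 60) + 2 ^ 96 * (p5 + 2 ^ 60))) := by
        positivity
      linarith
    have hle : c30 ≤ P.X := by zify; rw [hc30]; exact hge
    rw [Nat.cast_sub hle, hc30, hPX]
    unfold val; ring
  have k0 : |p0 - 2 ^ 30| < 2 ^ 60 := by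
    have a0 := abs_le.mp (bp0.trans hz)
    rw [abs_lt]; constructor
    · linarith [a0.1]
    · linarith [a0.2]
  have k (t : ℤ) (h : |t| ≤ (P.b : ℤ)) : |t| < 2 ^ 60 :=
    (h.trans hz).trans_lt (by norm_num)
  have hE := poly_abs h1 h2 h3 hrep2 k0 (k _ bp3) (k _ bp4) (k _ bp5)
  show Mem d1 d2 d3 (invF Y b (hn (Nat.sub P.X c30) + P.e)) f⁻¹
  generalize hn (Nat.sub P.X c30) = hN at hE
  have hEE : |f * p - 2 ^ 30| ≤ ((hN + P.e : ℕ) : ℝ) := by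
    have e : f * p - 2 ^ 30 = (f * (p / 2 ^ 30) * 2 ^ 30 -
        ((p0 : ℝ) + p3 * d1 + p4 * d2 + p5 * d3)) +
        (((p0 - 2 ^ 30 : ℤ) : ℝ) + p3 * d1 + p4 * d2 + p5 * d3) := by
      push_cast
      field_simp
      ring
    rw [e]
    push_cast at hE ⊢
    have := abs_add_le (f * (p / 2 ^ 30) * 2 ^ 30 -
        ((p0 : ℝ) + p3 * d1 + p4 * d2 + p5 * d3)) (((p0 : ℝ) - 2 ^ 30) + p3 * d1 + p4 * d2 + p5 * d3)
    linarith
  generalize hN + P.e = E at hEE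
  rcases hble3 : Nat.ble E c29 with _ | _
  · rw [invF_false hble3]; exact mem_bad _
  rw [invF_true hble3]
  intro hb60
  have hb60' : ((b : ℕ) : ℤ) < 2 ^ 60 := by
    have : b < 2 ^ 60 := hb60
    exact_mod_cast this
  refine ⟨y0, y3, y4, y5, hY, c0, c3, c4, c5, ?_⟩
  rw [← hp]
  have hpn := poly_abs h1 h2 h3 hY (c0.trans_lt hb60') (c3.trans_lt hb60') (c4.trans_lt hb60')
    (c5.trans_lt hb60')
  rw [← hp] at hpn
  have hE29 : (E : ℝ) ≤ 2 ^ 29 := by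
    have h := Nat.le_of_ble_eq_true hble3
    have hc : c29 = 2 ^ 29 := by decide +kernel
    rw [hc] at h
    exact_mod_cast h
  have hfp : (2 : ℝ) ^ 29 ≤ f * p := by
    have := (abs_le.mp hEE).1
    linarith
  have hfp0 : 0 < f * p := lt_of_lt_of_le (by positivity) hfp
  have hf : f ≠ 0 := fun h => by rw [h, zero_mul] at hfp0; exact lt_irrefl _ hfp0
  show |f⁻¹ * 2 ^ 30 - p| ≤ (((hn Y * E) >>> 29 + 1 : ℕ) : ℝ)
  have e : f⁻¹ * 2 ^ 30 - p = -(f * p - 2 ^ 30) * p / (f * p) := by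
    have hp0 : p ≠ 0 := fun h => by rw [h, mul_zero] at hfp0; exact lt_irrefl _ hfp0
    field_simp
    ring
  rw [e, abs_div, abs_mul, abs_neg, abs_of_pos hfp0]
  have hE0 : (0 : ℝ) ≤ (E : ℝ) := Nat.cast_nonneg _
  have hN0 : (0 : ℝ) ≤ (hn Y : ℝ) := Nat.cast_nonneg _
  calc |f * p - 2 ^ 30| * |p| / (f * p) ≤ (E * hn Y) / (f * p) := by
        apply div_le_div_of_nonneg_right _ hfp0.le
        exact mul_le_mul hEE hpn (abs_nonneg _) hE0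
    _ ≤ (E * hn Y) / 2 ^ 29 := by
        apply div_le_div_of_nonneg_left (mul_nonneg hE0 hN0) (by positivity) hfp
    _ = ((hn Y * E : ℕ) : ℝ) / 2 ^ 29 := by push_cast; ring
    _ ≤ (((hn Y * E) >>> 29 : ℕ) : ℝ) + 1 := shr29_real _
    _ = (((hn Y * E) >>> 29 + 1 : ℕ) : ℝ) := by push_cast; ring

/-- the Taylor model is positive -/
def R.pos (x : R) : Bool :=
  and (Nat.ble x.b cZ1) (Nat.ble (Nat.add (Nat.add (Nat.add cZ 1) (gn x.X)) x.e) (Nat.mod x.X cB))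

theorem pos_sound (h1 : |d1| ≤ 1) (h2 : |d2| ≤ 1) (h3 : |d3| ≤ 1) {x : R} {f : ℝ}
    (hx : Mem d1 d2 d3 x f) (h : R.pos x = true) : 0 < f := by
  unfold R.pos at h
  rw [Bool.and_eq_true] at h
  obtain ⟨ha, hb⟩ := h
  have hbb : x.b < 2 ^ 60 := by
    have := Nat.le_of_ble_eq_true ha
    have hc : cZ1 = 2 ^ 60 - 1 := by decide +kernel
    rw [hc] at this
    omega
  have hbz : (x.b : ℤ) < 2 ^ 60 := by exact_mod_cast hbb
  obtain ⟨x0, x3, x4, x5, rx, bx0, bx3, bx4, bx5, ex⟩ := hx hbb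
  have l0 := bx0.trans_lt hbz
  have l3 := bx3.trans_lt hbz
  have l4 := bx4.trans_lt hbz
  have l5 := bx5.trans_lt hbz
  have g := gn_spec rx l0 l3 l4 l5
  have m := mod_cen rx l0 l3 l4 l5
  have hle : cZ + 1 + gn x.X + x.e ≤ Nat.mod x.X cB := Nat.le_of_ble_eq_true hb
  have hle' : ((cZ + 1 + gn x.X + x.e : ℕ) : ℤ) ≤ x0 + 2 ^ 60 := by
    rw [← m]; exact_mod_cast hle
  rw [cZ_eq] at hle'
  push_cast at hle'
  have k : 1 + (gn x.X : ℤ) + x.e ≤ x0 := by linarith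
  have k' : 1 + (gn x.X : ℝ) + x.e ≤ x0 := by exact_mod_cast k
  have g' : |(x3 : ℝ)| + |(x4 : ℝ)| + |(x5 : ℝ)| ≤ (gn x.X : ℝ) := by exact_mod_cast g
  have b := lin_abs h1 h2 h3 (x3 : ℝ) x4 x5
  have b1 := (abs_le.mp b).1
  have b2 := (abs_le.mp ex).1
  have : 0 < f * 2 ^ 30 := by linarith
  exact pos_of_mul_pos_left this (by positivity)

/-- box variables `(C - 2^60 + r δ) / 2^30` -/
def R.v1 (C r : ℕ) : R :=
  ⟨Nat.add (Nat.add cZV C) (Nat.shiftLeft r 288), 0, Nat.add (an C) r⟩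
def R.v2 (C r : ℕ) : R :=
  ⟨Nat.add (Nat.add cZV C) (Nat.shiftLeft r 384), 0, Nat.add (an C) r⟩
def R.v3 (C r : ℕ) : R :=
  ⟨Nat.add (Nat.add cZV C) (Nat.shiftLeft r 480), 0, Nat.add (an C) r⟩

theorem an_small {C : ℕ} (hC : C < 2 ^ 61) : |((C : ℤ) - 2 ^ 60)| = (an C : ℤ) := by
  unfold an
  have hm : Nat.mod C cB = C := by
    show C % cB = C
    rw [cB_eq, Nat.mod_eq_of_lt (lt_trans hC (by norm_num))]
  rw [hm]
  show _ = (((C - cZ) + (cZ - C) : ℕ) : ℤ)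
  rw [cZ_eq]
  rcases le_total (2 ^ 60) C with hh | hh
  · have h' : (2 : ℤ) ^ 60 ≤ C := by exact_mod_cast hh
    rw [Nat.sub_eq_zero_of_le hh, add_zero, Nat.cast_sub hh, abs_of_nonneg (by linarith)]
    push_cast; linarith
  · have h' : (C : ℤ) ≤ 2 ^ 60 := by exact_mod_cast hh
    rw [Nat.sub_eq_zero_of_le hh, zero_add, Nat.cast_sub hh, abs_of_nonpos (by linarith)]
    push_cast; linarith

/-- value of a box variable -/
noncomputable def bv (C r : ℕ) (δ : ℝ) : ℝ := ((C : ℝ) - 2 ^ 60 + r * δ) / 2 ^ 30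

theorem mem_v1 {C r : ℕ} (hC : C < 2 ^ 61) : Mem d1 d2 d3 (R.v1 C r) (bv C r d1) := by
  intro _
  have a := an_small hC
  have hr : (0 : ℤ) ≤ r := Int.natCast_nonneg _
  have ha : (0 : ℤ) ≤ an C := Int.natCast_nonneg _
  refine ⟨(C : ℤ) - 2 ^ 60, r, 0, 0, ?_, ?_, ?_, ?_, ?_, ?_⟩
  · show ((cZV + C + r <<< 288 : ℕ) : ℤ) = _
    rw [cZV_eq, Nat.shiftLeft_eq]; push_cast; ring
  · show _ ≤ ((an C + r : ℕ) : ℤ)
    rw [a]; push_cast; linarith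
  · show _ ≤ ((an C + r : ℕ) : ℤ)
    rw [abs_of_nonneg hr]; push_cast; linarith
  · show |(0 : ℤ)| ≤ ((an C + r : ℕ) : ℤ)
    rw [abs_zero]; exact Int.natCast_nonneg _
  · show |(0 : ℤ)| ≤ ((an C + r : ℕ) : ℤ)
    rw [abs_zero]; exact Int.natCast_nonneg _
  · show |_| ≤ ((0 : ℕ) : ℝ)
    have : bv C r d1 * 2 ^ 30 - ((((C : ℤ) - 2 ^ 60 : ℤ) : ℝ) + ((r : ℤ) : ℝ) * d1 +
        ((0 : ℤ) : ℝ) * d2 + ((0 : ℤ) : ℝ) * d3) = 0 := by
      unfold bv; push_cast; field_simp; ring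
    rw [this, abs_zero]; exact Nat.cast_nonneg _

theorem mem_v2 {C r : ℕ} (hC : C < 2 ^ 61) : Mem d1 d2 d3 (R.v2 C r) (bv C r d2) := by
  intro _
  have a := an_small hC
  have hr : (0 : ℤ) ≤ r := Int.natCast_nonneg _
  have ha : (0 : ℤ) ≤ an C := Int.natCast_nonneg _
  refine ⟨(C : ℤ) - 2 ^ 60, 0, r, 0, ?_, ?_, ?_, ?_, ?_, ?_⟩
  · show ((cZV + C + r <<< 384 : ℕ) : ℤ) = _
    rw [cZV_eq, Nat.shiftLeft_eq]; push_cast; ring
  · show _ ≤ ((an C + r : ℕ) : ℤ)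
    rw [a]; push_cast; linarith
  · show |(0 : ℤ)| ≤ ((an C + r : ℕ) : ℤ)
    rw [abs_zero]; exact Int.natCast_nonneg _
  · show _ ≤ ((an C + r : ℕ) : ℤ)
    rw [abs_of_nonneg hr]; push_cast; linarith
  · show |(0 : ℤ)| ≤ ((an C + r : ℕ) : ℤ)
    rw [abs_zero]; exact Int.natCast_nonneg _
  · show |_| ≤ ((0 : ℕ) : ℝ)
    have : bv C r d2 * 2 ^ 30 - ((((C : ℤ) - 2 ^ 60 : ℤ) : ℝ) + ((0 : ℤ) : ℝ) * d1 +
        ((r : ℤ) : ℝ) * d2 + ((0 : ℤ) : ℝ) * d3) = 0 := by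
      unfold bv; push_cast; field_simp; ring
    rw [this, abs_zero]; exact Nat.cast_nonneg _

theorem mem_v3 {C r : ℕ} (hC : C < 2 ^ 61) : Mem d1 d2 d3 (R.v3 C r) (bv C r d3) := by
  intro _
  have a := an_small hC
  have hr : (0 : ℤ) ≤ r := Int.natCast_nonneg _
  have ha : (0 : ℤ) ≤ an C := Int.natCast_nonneg _
  refine ⟨(C : ℤ) - 2 ^ 60, 0, 0, r, ?_, ?_, ?_, ?_, ?_, ?_⟩
  · show ((cZV + C + r <<< 480 : ℕ) : ℤ) = _
    rw [cZV_eq, Nat.shiftLeft_eq]; push_cast; ring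
  · show _ ≤ ((an C + r : ℕ) : ℤ)
    rw [a]; push_cast; linarith
  · show |(0 : ℤ)| ≤ ((an C + r : ℕ) : ℤ)
    rw [abs_zero]; exact Int.natCast_nonneg _
  · show |(0 : ℤ)| ≤ ((an C + r : ℕ) : ℤ)
    rw [abs_zero]; exact Int.natCast_nonneg _
  · show _ ≤ ((an C + r : ℕ) : ℤ)
    rw [abs_of_nonneg hr]; push_cast; linarith
  · show |_| ≤ ((0 : ℕ) : ℝ)
    have : bv C r d3 * 2 ^ 30 - ((((C : ℤ) - 2 ^ 60 : ℤ) : ℝ) + ((0 : ℤ) : ℝ) * d1 +
        ((0 : ℤ) : ℝ) * d2 + ((r : ℤ) : ℝ) * d3) = 0 := by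
      unfold bv; push_cast; field_simp; ring
    rw [this, abs_zero]; exact Nat.cast_nonneg _

end Pool.TM
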