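import Pool.Agent.Work.MP_b5407d_tm.TM3

/-!
# The instance, parametricity, trees of boxes
-/

set_option autoImplicit false
set_option exponentiation.threshold 3000

namespace Pool.TM

instance instOpsR : Ops R := ⟨R.add, R.sub, R.mul, R.neg, R.inv, R.scl, R.c, R.q⟩

/-- sequencing (a `let` that is first order for unification) -/
def bnd {α β : Type} (a : α) (k : α → β) : β := k a

/-- the noise values -/
structure Noise where
  d1 : ℝ
  d2 : ℝ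
  d3 : ℝ
  h1 : |d1| ≤ 1
  h2 : |d2| ≤ 1
  h3 : |d3| ≤ 1

/-- membership for a noise -/
structure MM (N : Noise) (T : R) (f : ℝ) : Prop where
  out : Mem N.d1 N.d2 N.d3 T f

/-- lists of Taylor models and their values -/
structure ML (N : Noise) (l : List R) (l' : List ℝ) : Prop where
  out : List.Forall₂ (MM N) l l'

theorem ML.nil {N : Noise} : ML N [] [] := ⟨List.Forall₂.nil⟩

theorem ML.cons {N : Noise} {x : R} {f : ℝ} {l : List R} {l' : List ℝ} (h : MM N x f)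
    (h' : ML N l l') : ML N (x :: l) (f :: l') := ⟨List.Forall₂.cons h h'.out⟩

theorem MM.add {N : Noise} {x y : R} {f g : ℝ} (hx : MM N x f) (hy : MM N y g) :
    MM N (Ops.add x y) (Ops.add f g) := ⟨mem_add hx.out hy.out⟩

theorem MM.sub {N : Noise} {x y : R} {f g : ℝ} (hx : MM N x f) (hy : MM N y g) :
    MM N (Ops.sub x y) (Ops.sub f g) := ⟨mem_sub hx.out hy.out⟩

theorem MM.mul {N : Noise} {x y : R} {f g : ℝ} (hx : MM N x f) (hy : MM N y g) :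
    MM N (Ops.mul x y) (Ops.mul f g) := ⟨mem_mul N.h1 N.h2 N.h3 hx.out hy.out⟩

theorem MM.neg {N : Noise} {x : R} {f : ℝ} (hx : MM N x f) : MM N (Ops.neg x) (Ops.neg f) :=
  ⟨mem_neg hx.out⟩

theorem MM.inv {N : Noise} {x : R} {f : ℝ} (hx : MM N x f) : MM N (Ops.inv x) (Ops.inv f) :=
  ⟨mem_inv N.h1 N.h2 N.h3 hx.out⟩

theorem MM.scl {N : Noise} (n : ℕ) {x : R} {f : ℝ} (hx : MM N x f) :
    MM N (Ops.scl n x) (Ops.scl n f) := ⟨mem_scl N.h1 N.h2 N.h3 hx.out⟩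

theorem MM.c {N : Noise} (n : ℕ) : MM N (Ops.c n) (Ops.c n) := ⟨mem_c n⟩

theorem MM.q {N : Noise} (n d : ℕ) (h : Nat.ble 1 d = true) : MM N (Ops.q n d) (Ops.q n d) :=
  ⟨mem_q n d (Nat.le_of_ble_eq_true h)⟩

theorem MM.bnd {N : Noise} {x : R} {f : ℝ} {k : R → R} {k' : ℝ → ℝ} (hx : MM N x f)
    (hk : ∀ y g, MM N y g → MM N (k y) (k' g)) : MM N (bnd x k) (bnd f k') := hk _ _ hx

theorem ML.bnd {N : Noise} {x : R} {f : ℝ} {k : R → List R} {k' : ℝ → List ℝ} (hx : MM N x f)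
    (hk : ∀ y g, MM N y g → ML N (k y) (k' g)) : ML N (bnd x k) (bnd f k') := hk _ _ hx

/-! Membership of a program is proved by

`unfold prog; repeat' (first`
  `| with_reducible refine ML.bnd ?_ (fun _ _ _ => ?_)`
  `| with_reducible refine MM.bnd ?_ (fun _ _ _ => ?_)`
  `| with_reducible refine ML.cons ?_ ?_`
  `| with_reducible exact ML.nil`
  `| with_reducible exact MM.c _`
  `| with_reducible refine MM.scl _ ?_`
  `| with_reducible refine MM.mul ?_ ?_`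
  `| with_reducible refine MM.add ?_ ?_`
  `| with_reducible refine MM.sub ?_ ?_`
  `| with_reducible refine MM.neg ?_`
  `| with_reducible refine MM.inv ?_`
  `| with_reducible assumption`
  `| exact MM.q _ _ rfl)`
-/

/-- all entries are positive -/
def allPos : List R → Bool
  | [] => true
  | x :: l => and (R.pos x) (allPos l)

theorem allPos_sound {N : Noise} : ∀ {l : List R} {l' : List ℝ}, ML N l l' → allPos l = true →
    ∀ a ∈ l', 0 < a := by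
  intro l l' h
  replace h := h.out
  induction h with
  | nil => intro _ a ha; simp at ha
  | cons hx _ ih =>
    intro hp a ha
    unfold allPos at hp
    rw [Bool.and_eq_true] at hp
    rcases List.mem_cons.mp ha with rfl | h
    · exact pos_sound N.h1 N.h2 N.h3 hx.out hp.1
    · exact ih hp.2 a h

/-- trees of boxes -/
inductive Tree (β : Type) where
  | leaf : β → Tree β
  | s1 : Tree β → Tree β → Tree β
  | s2 : Tree β → Tree β → Tree β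
  | s3 : Tree β → Tree β → Tree β

/-- half of the radius, rounded up -/
def hf (r : ℕ) : ℕ := Nat.shiftRight (Nat.add r 1) 1

/-- `2^61 - 1` -/
def cZ2 : ℕ := 2305843009213693951

/-- check of the leaves -/
def Tree.chk {β : Type} (P : β → R → R → R → Bool) : Tree β → ℕ → ℕ → ℕ → ℕ → ℕ → ℕ → Bool
  | .leaf v, C1, r1, C2, r2, C3, r3 =>
    and (and (Nat.ble C1 cZ2) (and (Nat.ble C2 cZ2) (Nat.ble C3 cZ2)))
      (P v (R.v1 C1 r1) (R.v2 C2 r2) (R.v3 C3 r3))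
  | .s1 l r, C1, r1, C2, r2, C3, r3 =>
    and (Nat.ble (hf r1) C1) (and (l.chk P (Nat.sub C1 (hf r1)) (hf r1) C2 r2 C3 r3)
      (r.chk P (Nat.add C1 (hf r1)) (hf r1) C2 r2 C3 r3))
  | .s2 l r, C1, r1, C2, r2, C3, r3 =>
    and (Nat.ble (hf r2) C2) (and (l.chk P C1 r1 (Nat.sub C2 (hf r2)) (hf r2) C3 r3)
      (r.chk P C1 r1 (Nat.add C2 (hf r2)) (hf r2) C3 r3))
  | .s3 l r, C1, r1, C2, r2, C3, r3 =>
    and (Nat.ble (hf r3) C3) (and (l.chk P C1 r1 C2 r2 (Nat.sub C3 (hf r3)) (hf r3))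
      (r.chk P C1 r1 C2 r2 (Nat.add C3 (hf r3)) (hf r3)))

theorem split_bv {C r : ℕ} (h : hf r ≤ C) {d : ℝ} (hd : |d| ≤ 1) :
    (∃ d', |d'| ≤ 1 ∧ bv C r d = bv (Nat.sub C (hf r)) (hf r) d') ∨
    (∃ d', |d'| ≤ 1 ∧ bv C r d = bv (Nat.add C (hf r)) (hf r) d') := by
  have hr : r ≤ 2 * hf r := by
    show r ≤ 2 * ((r + 1) >>> 1)
    rw [Nat.shiftRight_eq_div_pow]; omega
  generalize hf r = h' at *
  have hr' : (r : ℝ) ≤ 2 * h' := by exact_mod_cast hr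
  have r0 : (0 : ℝ) ≤ r := Nat.cast_nonneg _
  have hd' := abs_le.mp hd
  have e1 : ((Nat.sub C h' : ℕ) : ℝ) = (C : ℝ) - h' := by
    show ((C - h' : ℕ) : ℝ) = _
    rw [Nat.cast_sub h]
  have e2 : ((Nat.add C h' : ℕ) : ℝ) = (C : ℝ) + h' := by
    show ((C + h' : ℕ) : ℝ) = _
    rw [Nat.cast_add]
  rcases eq_or_lt_of_le (show (0 : ℝ) ≤ h' from Nat.cast_nonneg _) with h0 | h0
  · have : (r : ℝ) = 0 := by linarith
    left
    refine ⟨0, by simp, ?_⟩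
    unfold bv; rw [e1, this, ← h0]; ring
  · have m1 : -(r : ℝ) ≤ r * d := by nlinarith
    have m2 : (r : ℝ) * d ≤ r := by nlinarith
    rcases le_total (r * d) 0 with h1 | h1
    · left
      refine ⟨(h' + r * d) / h', ?_, ?_⟩
      · rw [abs_le, le_div_iff₀ h0, div_le_iff₀ h0]
        constructor <;> linarith
      · unfold bv; rw [e1]; field_simp; ring
    · right
      refine ⟨(r * d - h') / h', ?_, ?_⟩
      · rw [abs_le, le_div_iff₀ h0, div_le_iff₀ h0]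
        constructor <;> linarith
      · unfold bv; rw [e2]; field_simp; ring

theorem cZ2_lt {C : ℕ} (h : Nat.ble C cZ2 = true) : C < 2 ^ 61 := by
  have := Nat.le_of_ble_eq_true h
  have hc : cZ2 = 2 ^ 61 - 1 := by decide +kernel
  rw [hc] at this
  have : (0 : ℕ) < 2 ^ 61 := by positivity
  omega

/-- soundness of the check -/
theorem Tree.sound {β : Type} {P : β → R → R → R → Bool} {Q : ℝ → ℝ → ℝ → Prop}
    (hP : ∀ (v : β) (x y z : R) (N : Noise) (a b c : ℝ), MM N x a → MM N y b → MM N z c →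
      P v x y z = true → Q a b c) :
    ∀ (t : Tree β) (C1 r1 C2 r2 C3 r3 : ℕ), t.chk P C1 r1 C2 r2 C3 r3 = true →
      ∀ d1 d2 d3 : ℝ, |d1| ≤ 1 → |d2| ≤ 1 → |d3| ≤ 1 → Q (bv C1 r1 d1) (bv C2 r2 d2) (bv C3 r3 d3) := by
  intro t
  induction t with
  | leaf v =>
    intro C1 r1 C2 r2 C3 r3 h d1 d2 d3 h1 h2 h3
    unfold Tree.chk at h
    simp only [Bool.and_eq_true] at h
    obtain ⟨⟨a1, a2, a3⟩, hp⟩ := h
    exact hP v _ _ _ ⟨d1, d2, d3, h1, h2, h3⟩ _ _ _ ⟨mem_v1 (cZ2_lt a1)⟩ ⟨mem_v2 (cZ2_lt a2)⟩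
      ⟨mem_v3 (cZ2_lt a3)⟩ hp
  | s1 l r il ir =>
    intro C1 r1 C2 r2 C3 r3 h d1 d2 d3 h1 h2 h3
    unfold Tree.chk at h
    simp only [Bool.and_eq_true] at h
    obtain ⟨a, b, c⟩ := h
    rcases split_bv (Nat.le_of_ble_eq_true a) h1 with ⟨d', hd', e⟩ | ⟨d', hd', e⟩
    · rw [e]; exact il _ _ _ _ _ _ b _ _ _ hd' h2 h3
    · rw [e]; exact ir _ _ _ _ _ _ c _ _ _ hd' h2 h3
  | s2 l r il ir =>
    intro C1 r1 C2 r2 C3 r3 h d1 d2 d3 h1 h2 h3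
    unfold Tree.chk at h
    simp only [Bool.and_eq_true] at h
    obtain ⟨a, b, c⟩ := h
    rcases split_bv (Nat.le_of_ble_eq_true a) h2 with ⟨d', hd', e⟩ | ⟨d', hd', e⟩
    · rw [e]; exact il _ _ _ _ _ _ b _ _ _ h1 hd' h3
    · rw [e]; exact ir _ _ _ _ _ _ c _ _ _ h1 hd' h3
  | s3 l r il ir =>
    intro C1 r1 C2 r2 C3 r3 h d1 d2 d3 h1 h2 h3
    unfold Tree.chk at h
    simp only [Bool.and_eq_true] at h
    obtain ⟨a, b, c⟩ := h
    rcases split_bv (Nat.le_of_ble_eq_true a) h3 with ⟨d', hd', e⟩ | ⟨d', hd', e⟩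
    · rw [e]; exact il _ _ _ _ _ _ b _ _ _ h1 h2 hd'
    · rw [e]; exact ir _ _ _ _ _ _ c _ _ _ h1 h2 hd'

/-- points of a box -/
theorem exists_bv {C r : ℕ} {t : ℝ} (h1 : ((C : ℝ) - 2 ^ 60 - r) / 2 ^ 30 ≤ t)
    (h2 : t ≤ ((C : ℝ) - 2 ^ 60 + r) / 2 ^ 30) : ∃ d, |d| ≤ 1 ∧ t = bv C r d := by
  rw [div_le_iff₀ (by positivity)] at h1
  rw [le_div_iff₀ (by positivity)] at h2
  rcases eq_or_lt_of_le (show (0 : ℝ) ≤ r from Nat.cast_nonneg _) with h0 | h0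
  · refine ⟨0, by simp, ?_⟩
    unfold bv
    rw [eq_div_iff (by positivity)]
    rw [← h0] at h1 h2 ⊢
    linarith
  · refine ⟨(t * 2 ^ 30 - (C - 2 ^ 60)) / r, ?_, ?_⟩
    · rw [abs_le, le_div_iff₀ h0, div_le_iff₀ h0]
      constructor <;> linarith
    · unfold bv; field_simp; ring

/-- the check covers the box: interval form -/
theorem Tree.sound' {β : Type} {P : β → R → R → R → Bool} {Q : ℝ → ℝ → ℝ → Prop}
    (hP : ∀ (v : β) (x y z : R) (N : Noise) (a b c : ℝ), MM N x a → MM N y b → MM N z c →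
      P v x y z = true → Q a b c)
    (t : Tree β) (C1 r1 C2 r2 C3 r3 : ℕ) (h : t.chk P C1 r1 C2 r2 C3 r3 = true) {a b c : ℝ}
    (a1 : ((C1 : ℝ) - 2 ^ 60 - r1) / 2 ^ 30 ≤ a) (a2 : a ≤ ((C1 : ℝ) - 2 ^ 60 + r1) / 2 ^ 30)
    (b1 : ((C2 : ℝ) - 2 ^ 60 - r2) / 2 ^ 30 ≤ b) (b2 : b ≤ ((C2 : ℝ) - 2 ^ 60 + r2) / 2 ^ 30)
    (c1 : ((C3 : ℝ) - 2 ^ 60 - r3) / 2 ^ 30 ≤ c) (c2 : c ≤ ((C3 : ℝ) - 2 ^ 60 + r3) / 2 ^ 30) :
    Q a b c := by
  obtain ⟨e1, g1, rfl⟩ := exists_bv a1 a2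
  obtain ⟨e2, g2, rfl⟩ := exists_bv b1 b2
  obtain ⟨e3, g3, rfl⟩ := exists_bv c1 c2
  exact Tree.sound hP t _ _ _ _ _ _ h _ _ _ g1 g2 g3

/-- the usual leaf test: all outputs of a program are positive -/
theorem Tree.pos {β : Type} (prog : (α : Type) → [Ops α] → β → α → α → α → List α)
    (hprog : ∀ (v : β) (x y z : R) (N : Noise) (a b c : ℝ), MM N x a → MM N y b → MM N z c →
      ML N (prog R v x y z) (prog ℝ v a b c))
    (t : Tree β) (C1 r1 C2 r2 C3 r3 : ℕ)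
    (h : t.chk (fun v x y z => allPos (prog R v x y z)) C1 r1 C2 r2 C3 r3 = true) {a b c : ℝ}
    (a1 : ((C1 : ℝ) - 2 ^ 60 - r1) / 2 ^ 30 ≤ a) (a2 : a ≤ ((C1 : ℝ) - 2 ^ 60 + r1) / 2 ^ 30)
    (b1 : ((C2 : ℝ) - 2 ^ 60 - r2) / 2 ^ 30 ≤ b) (b2 : b ≤ ((C2 : ℝ) - 2 ^ 60 + r2) / 2 ^ 30)
    (c1 : ((C3 : ℝ) - 2 ^ 60 - r3) / 2 ^ 30 ≤ c) (c2 : c ≤ ((C3 : ℝ) - 2 ^ 60 + r3) / 2 ^ 30) :
    ∃ v : β, ∀ u ∈ prog ℝ v a b c, 0 < u :=
  Tree.sound' (Q := fun a b c => ∃ v : β, ∀ u ∈ prog ℝ v a b c, 0 < u)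
    (fun v _ _ _ N _ _ _ ha hb hc hp =>
      ⟨v, allPos_sound (hprog v _ _ _ N _ _ _ ha hb hc) hp⟩) t _ _ _ _ _ _ h a1 a2 b1 b2 c1 c2

end Pool.TM
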